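import Mathlib
import Pool.Agent.TH118.SG.Span

/-!
# The large eigenspace is generated by the images of the small ones
-/

set_option linter.unusedSectionVars false

namespace Pool.Agent.TH118.SG

open Module Pool.Agent.H204R3.SP Pool.Agent.H204R3.GP Pool.Agent.W522.U Pool.Agent.TH118.CR
open Pool.Agent.TH118.CU Pool.Agent.TH118.IS

variable {K : Type} [Field K] [CharZero K] [IsAlgClosed K] {X : Type} [AddCommGroup X]
  [Module K X] [FiniteDimensional K X] {Γ : Type} [Group Γ] {R : Representation K Γ X}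
  {χ : Γ →* K} {L : Submodule K (End K X)} {γ : Γ}

/-- The span of the images in the eigenspace for `a` of the eigenvectors for other eigenvalues. -/
def W0 (R : Representation K Γ X) (L : Submodule K (End K X)) (γ : Γ) (a : K) : Submodule K X :=
  Submodule.span K {w | ∃ ν : K, ν ≠ 1 ∧ ν ≠ 0 ∧ ∃ N ∈ Lnu R L γ ν, ∃ f ∈ eig R γ ⊤ (a * ν⁻¹), N f = w}

/-- The sum of the other eigenspaces and the span of the images. -/
def SS (R : Representation K Γ X) (L : Submodule K (End K X)) (γ : Γ) (a : K) : Submodule K X :=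
  part R γ ⊤ {a}ᶜ ⊔ W0 R L γ a

theorem eig_le_SS {a β : K} (h : β ≠ a) : eig R γ ⊤ β ≤ SS R L γ a :=
  le_trans (eig_le_part (A := {a}ᶜ) h) le_sup_left

variable (hconj : ∀ g : Γ, ∀ Y ∈ L, R g * Y * R g⁻¹ ∈ L)
  (hbr : ∀ Y ∈ L, ∀ Z ∈ L, Y * Z - Z * Y ∈ L) {k : ℕ} (hk : 0 < k) (hγ : R γ ^ k = 1) {a : K}
  (ha0 : a ≠ 0)

include hconj hbr hk hγ in
theorem SS_stable (ha0 : a ≠ 0) {Y : End K X} (hY : Y ∈ L) :
    ∀ s ∈ SS R L γ a, Y s ∈ SS R L γ a := by
  have hkK : (k : K) ≠ 0 := Nat.cast_ne_zero.2 hk.ne'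
  have h1 : part R γ ⊤ {a}ᶜ ≤ (SS R L γ a).comap Y := by
    rw [part, iSup_le_iff]
    rintro ⟨α, hα⟩ s hs
    obtain ⟨f, hf, hfs, hf1⟩ := image_comp hk hγ (Y := Y) hs
    rw [Submodule.mem_comap, ← hfs]
    refine Submodule.sum_mem _ fun β hβ => ?_
    by_cases hβa : β = a
    · subst hβa
      obtain ⟨h2, hβk, hβ0⟩ := hf1 β (Finsupp.mem_support_iff.1 hβ)
      have hs0 : s ≠ 0 := by
        rintro rfl
        rw [map_zero] at h2
        exact Finsupp.mem_support_iff.1 hβ ((smul_eq_zero.1 h2).resolve_left hkK)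
      have hαb : eig R γ ⊤ α ≠ ⊥ := Submodule.ne_bot_iff _ |>.2 ⟨s, hs, hs0⟩
      have hα0 := eig_ne hαb
      have hαk := eig_root hγ hαb
      have h3 : f β = (k : K)⁻¹ • avg R γ k (β * α⁻¹) Y s := by
        rw [← h2, smul_smul, inv_mul_cancel₀ hkK, one_smul]
      rw [h3]
      refine Submodule.smul_mem _ _ (Submodule.mem_sup_right (Submodule.subset_span ?_))
      refine ⟨β * α⁻¹, fun h => hα ?_, mul_ne_zero hβ0 (inv_ne_zero hα0), _,
        avg_Lnu hconj hγ (by rw [mul_pow, inv_pow, hαk, hβk, inv_one, mul_one])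
          (mul_ne_zero hβ0 (inv_ne_zero hα0)) hY, s, ?_, rfl⟩
      · exact ((mul_inv_eq_one₀ hα0).1 h).symm
      · have e1 : β * (β * α⁻¹)⁻¹ = α := by field_simp
        rw [e1]
        exact hs
    · exact eig_le_SS hβa (hf β)
  have h2 : W0 R L γ a ≤ (SS R L γ a).comap Y := by
    rw [W0, Submodule.span_le]
    rintro _ ⟨ν, hν, hν0, N, hN, f', hf', rfl⟩
    have hs : N f' ∈ eig R γ ⊤ a := by
      have h3 := Lnu_maps hN hf'
      rwa [inv_mul_cancel_right₀ hν0] at h3
    obtain ⟨f, hf, hfs, hf1⟩ := image_comp hk hγ (Y := Y) hs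
    change Y (N f') ∈ SS R L γ a
    rw [← hfs]
    refine Submodule.sum_mem _ fun β hβ => ?_
    by_cases hβa : β = a
    · subst hβa
      obtain ⟨h3, hβk, hβ0⟩ := hf1 β (Finsupp.mem_support_iff.1 hβ)
      rw [mul_inv_cancel₀ hβ0] at h3
      have h4 : f β = (k : K)⁻¹ • avg R γ k 1 Y (N f') := by
        rw [← h3, smul_smul, inv_mul_cancel₀ hkK, one_smul]
      have hY1 : avg R γ k 1 Y ∈ Lnu R L γ 1 := avg_Lnu hconj hγ (one_pow _) one_ne_zero hY
      set Z := avg R γ k 1 Y with hZ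
      have h5 : Z (N f') = (Z * N - N * Z) f' + N (Z f') := by
        rw [LinearMap.sub_apply, Module.End.mul_apply, Module.End.mul_apply, sub_add_cancel]
      rw [h4, h5]
      refine Submodule.smul_mem _ _ (Submodule.mem_sup_right (Submodule.add_mem _ ?_ ?_))
      · exact Submodule.subset_span ⟨ν, hν, hν0, _, Lnu_bracket hbr hY1 hN, f', hf', rfl⟩
      · refine Submodule.subset_span ⟨ν, hν, hν0, _, hN, Z f', ?_, rfl⟩
        have h6 := Lnu_maps hY1 hf'
        rwa [mul_one] at h6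
    · exact eig_le_SS hβa (hf β)
  intro s hs
  exact (sup_le h1 h2) hs

variable {ω : X →ₗ[K] X →ₗ[K] K} (hnd : ∀ u, (∀ v, ω u v = 0) → u = 0)
  (hωR : ∀ g u v, ω (R g u) (R g v) = χ g * ω u v) (ha : a * a = χ γ)
  (hsp : ∀ Y ∈ L, ∀ u w, ω (Y u) w + ω u (Y w) = 0)

include hk hγ hnd hωR ha in
/-- The orthogonal complement is contained in the large eigenspace. -/
theorem perp_le {u : X} (hu : ∀ s ∈ SS R L γ a, ω u s = 0) : u ∈ eig R γ ⊤ a := by
  have hχ : χ γ ≠ 0 := χne γ
  have ha0 : a ≠ 0 := by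
    rintro rfl
    rw [mul_zero] at ha
    exact hχ ha.symm
  obtain ⟨f, hf, hfs⟩ := exists_comp hk hγ (U := (⊤ : Submodule K X))
    (fun u _ => Submodule.mem_top) (Submodule.mem_top (x := u))
  have h1 : ∀ α, α ≠ a → f α = 0 := by
    intro α hα
    refine zero_of_dual hωR hk hγ (fun u _ => Submodule.mem_top)
      (fun u _ h => hnd u fun v => h v Submodule.mem_top) (hf α) fun β hβ w hw => ?_
    have hβa : β ≠ a := by
      rintro rfl
      apply hα
      have h2 : (α - β) * β = 0 := by linear_combination hβ - ha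
      exact sub_eq_zero.1 ((mul_eq_zero.1 h2).resolve_right ha0)
    have h2 := hu w (eig_le_SS hβa hw)
    rw [← hfs, Finsupp.sum, map_sum, LinearMap.sum_apply, Finset.sum_eq_single α] at h2
    · exact h2
    · intro α' _ hα'
      refine pair_zero hωR (fun h => hα' ?_) (hf α') hw
      have h3 : (α' - α) * β = 0 := by linear_combination h - hβ
      have hβ0 : β ≠ 0 := by
        rintro rfl
        rw [mul_zero] at hβ
        exact hχ hβ.symm
      exact sub_eq_zero.1 ((mul_eq_zero.1 h3).resolve_right hβ0)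
    · intro h
      rw [Finsupp.notMem_support_iff.1 h, map_zero, LinearMap.zero_apply]
  have h2 : u = f a := by
    rw [← hfs, Finsupp.sum, Finset.sum_eq_single a]
    · intro α _ hα
      exact h1 α hα
    · intro h
      exact Finsupp.notMem_support_iff.1 h
  rw [h2]
  exact hf a

include hconj hbr hk hγ hnd hωR ha hsp in
/-- The span of the images is the whole eigenspace. -/
theorem le_W0 (hX : SI R (⊤ : Submodule K X)) (hν : ∃ ν : K, ν ≠ 1 ∧ Lnu R L γ ν ≠ ⊥) :
    eig R γ ⊤ a ≤ W0 R L γ a := by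
  have hχ : χ γ ≠ 0 := χne γ
  have ha0 : a ≠ 0 := by
    rintro rfl
    rw [mul_zero] at ha
    exact hχ ha.symm
  let U : Submodule K X :=
    { carrier := {u | ∀ s ∈ SS R L γ a, ω u s = 0}
      zero_mem' := fun s _ => by rw [map_zero, LinearMap.zero_apply]
      add_mem' := fun {u v} hu hv s hs => by
        rw [map_add, LinearMap.add_apply, hu s hs, hv s hs, add_zero]
      smul_mem' := fun c u hu s hs => by
        rw [map_smul, LinearMap.smul_apply, hu s hs, smul_zero] }
  have hUW : ∀ u ∈ U, u ∈ eig R γ ⊤ a := fun u hu => perp_le hk hγ hnd hωR ha hu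
  have hUst : ∀ Y ∈ L, ∀ u ∈ U, Y u ∈ U := by
    intro Y hY u hu s hs
    have h1 := hsp Y hY u s
    rw [hu _ (SS_stable hconj hbr hk hγ ha0 hY s hs), add_zero] at h1
    exact h1
  have hU0 : U = ⊥ := by
    by_contra hU
    obtain ⟨ν, hν1, hν⟩ := hν
    apply hν
    rw [eq_bot_iff]
    intro N hN
    rw [Submodule.mem_bot]
    refine Pool.Agent.TH118.SC.ann_space hX L hconj hU hUst hN.1 fun u hu => ?_
    have h1 := Lnu_maps hN (hUW u hu)
    have h2 := hUW _ (hUst N hN.1 u hu)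
    rw [mem_eig] at h1 h2
    have h3 : (a - a * ν) • N u = 0 := by rw [sub_smul, ← h1.2, ← h2.2, sub_self]
    refine (smul_eq_zero.1 h3).resolve_left fun h => hν1 ?_
    have h4 : a * (1 - ν) = 0 := by linear_combination h
    have h5 := (mul_eq_zero.1 h4).resolve_left ha0
    exact (sub_eq_zero.1 h5).symm
  have hS : SS R L γ a = ⊤ := by
    by_contra hS
    obtain ⟨φ, hφ0, hφ⟩ := Submodule.exists_le_ker_of_lt_top _ (lt_top_iff_ne_top.2 hS)
    obtain ⟨u, hu⟩ : ∃ u, ω u = φ := by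
      have h1 : Function.Injective ω := by
        rw [injective_iff_map_eq_zero]
        intro u hu
        exact hnd u fun v => by rw [hu, LinearMap.zero_apply]
      have h2 : Function.Surjective ω :=
        (LinearMap.injective_iff_surjective_of_finrank_eq_finrank
          (by rw [Module.finrank_linearMap_self])).1 h1
      exact h2 φ
    have h1 : u ∈ U := fun s hs => by
      rw [hu]
      exact hφ hs
    rw [hU0, Submodule.mem_bot] at h1
    rw [h1, map_zero] at hu
    exact hφ0 hu.symm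
  have hW0 : W0 R L γ a ≤ eig R γ ⊤ a := by
    rw [W0, Submodule.span_le]
    rintro _ ⟨ν, hν, hν0, N, hN, f', hf', rfl⟩
    have h3 := Lnu_maps hN hf'
    rwa [inv_mul_cancel_right₀ hν0] at h3
  intro w hw
  have h1 : w ∈ SS R L γ a := by rw [hS]; exact Submodule.mem_top
  obtain ⟨p, hp, w', hw', rfl⟩ := Submodule.mem_sup.1 h1
  have h2 : p ∈ eig R γ ⊤ a := by
    have h3 := Submodule.sub_mem _ hw (hW0 hw')
    rwa [add_sub_cancel_right] at h3
  obtain ⟨q, -, hq1, hq2⟩ := exists_projector (U := (⊤ : Submodule K X)) {a} hk hγ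
    (fun u _ => Submodule.mem_top)
  have h3 : p = 0 := by
    rw [← hq1 p (eig_le_part (A := {a}) rfl h2), hq2 p hp]
  rw [h3, zero_add]
  exact hw'

end Pool.Agent.TH118.SG
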