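import Mathlib
import Pool.Agent.TH118.SG.Whole

/-!
# The element of rank two
-/

set_option linter.unusedSectionVars false

namespace Pool.Agent.TH118.SG

open Module Pool.Agent.H204R3.SP Pool.Agent.H204R3.GP Pool.Agent.W522.U Pool.Agent.TH118.CR
open Pool.Agent.TH118.CU Pool.Agent.TH118.IS
open Pool.Agent.TH118.SC (exists_gen others mem_others card_others_le eig_neg even_others half
  finrank_sup_le)

variable {K : Type} [Field K] [CharZero K] [IsAlgClosed K] {X : Type} [AddCommGroup X]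
  [Module K X] [FiniteDimensional K X] {Γ : Type} [Group Γ] {R : Representation K Γ X}
  {χ : Γ →* K} {L : Submodule K (End K X)} {γ : Γ}

variable {k : ℕ} (hk : 0 < k) (hγ : R γ ^ k = 1) {a : K}
  {ω : X →ₗ[K] X →ₗ[K] K} (halt : ∀ v, ω v v = 0) (hnd : ∀ u, (∀ v, ω u v = 0) → u = 0)
  (hωR : ∀ g u v, ω (R g u) (R g v) = χ g * ω u v) (ha : a * a = χ γ)
  (hsim : ∀ α, α ≠ a → finrank K (eig R γ ⊤ α) ≤ 1)
  (hconj : ∀ g : Γ, ∀ Y ∈ L, R g * Y * R g⁻¹ ∈ L)
  (hbr : ∀ Y ∈ L, ∀ Z ∈ L, Y * Z - Z * Y ∈ L)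
  (hsp : ∀ Y ∈ L, ∀ u w, ω (Y u) w + ω u (Y w) = 0)

include hk hγ halt hnd hωR ha hsim hsp in
/-- An element which is zero on all eigenspaces except those for `a` and `α`. -/
theorem rank_two (ha0 : a ≠ 0) {α : K} (hα : α ≠ a) (hα0 : α ≠ 0) (hα1 : α ≠ -a) {N : End K X}
    (hN : N ∈ Lnu R L γ (a * α⁻¹)) (hkill : ∀ β, β ≠ a → β ≠ α → ∀ u ∈ eig R γ ⊤ β, N u = 0) :
    N * N = 0 ∧ finrank K ((⊤ : Submodule K X).map N) ≤ 2 := by
  classical
  obtain ⟨e, he, hgen⟩ := exists_gen (hsim α hα)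
  have hdec : ∀ v, ∃ p ∈ eig R γ ⊤ a, ∃ q ∈ eig R γ ⊤ α, N v = N p + N q := by
    intro v
    obtain ⟨f, hf, hfs⟩ := exists_comp hk hγ (U := (⊤ : Submodule K X))
      (fun u _ => Submodule.mem_top) (Submodule.mem_top (x := v))
    refine ⟨f a, hf a, f α, hf α, ?_⟩
    have h1 : N v = ∑ β ∈ f.support ∪ {a, α}, N (f β) := by
      rw [← hfs, Finsupp.sum, map_sum]
      refine Finset.sum_subset Finset.subset_union_left fun β _ hβ => ?_
      rw [Finsupp.notMem_support_iff.1 hβ, map_zero]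
    rw [h1]
    rw [← Finset.sum_subset (s₁ := {a, α}) Finset.subset_union_right]
    · rw [Finset.sum_pair hα.symm]
    · intro β _ hβ
      rw [Finset.mem_insert, Finset.mem_singleton, not_or] at hβ
      exact hkill β hβ.1 hβ.2 _ (hf β)
  have hνa : a * (a * α⁻¹) ≠ a := by
    intro h
    apply hα
    have h1 : a * (a - α) = 0 := by
      have h2 : a * (a * α⁻¹) * α = a * α := by rw [h]
      rw [show a * (a * α⁻¹) * α = a * a by field_simp] at h2
      linear_combination h2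
    exact (sub_eq_zero.1 ((mul_eq_zero.1 h1).resolve_left ha0)).symm
  have hνα : a * (a * α⁻¹) ≠ α := by
    intro h
    have h1 : (a - α) * (a + α) = 0 := by
      have h2 : a * (a * α⁻¹) * α = α * α := by rw [h]
      rw [show a * (a * α⁻¹) * α = a * a by field_simp] at h2
      linear_combination h2
    rcases mul_eq_zero.1 h1 with h2 | h2
    · exact hα (sub_eq_zero.1 h2).symm
    · exact hα1 (by linear_combination h2)
  have hp : ∀ p ∈ eig R γ ⊤ a, N (N p) = 0 := by
    intro p hp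
    exact hkill _ hνa hνα _ (Lnu_maps hN hp)
  have hq : ∀ q ∈ eig R γ ⊤ α, N (N q) = 0 := by
    intro q hq
    have h1 := Lnu_maps hN (Lnu_maps hN hq)
    rw [show α * (a * α⁻¹) = a by field_simp] at h1
    refine zero_of_dual hωR hk hγ (fun u _ => Submodule.mem_top)
      (fun u _ h => hnd u fun v => h v Submodule.mem_top) h1 fun β hβ w hw => ?_
    have h2 : β = α := by
      have h3 : a * a * (α⁻¹ * β - 1) = 0 := by linear_combination hβ - ha
      have h4 := (mul_eq_zero.1 h3).resolve_left (mul_ne_zero ha0 ha0)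
      have h5 : α⁻¹ * β = 1 := by linear_combination h4
      rw [← mul_one α, ← h5, mul_inv_cancel_left₀ hα0]
    rw [h2] at hw
    obtain ⟨c, rfl⟩ := hgen q hq
    obtain ⟨c', rfl⟩ := hgen w hw
    have h3 := hsp N hN.1 (N e) e
    rw [halt, add_zero] at h3
    simp only [map_smul, LinearMap.smul_apply, smul_eq_mul, h3, mul_zero]
  refine ⟨?_, ?_⟩
  · apply LinearMap.ext
    intro v
    obtain ⟨p, hp1, q, hq1, h⟩ := hdec v
    rw [Module.End.mul_apply, h, map_add, hp p hp1, hq q hq1, add_zero, LinearMap.zero_apply]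
  · have h1 : (⊤ : Submodule K X).map N ≤
        Submodule.span K {N e} ⊔ eig R γ ⊤ (a * (a * α⁻¹)) := by
      rintro _ ⟨v, -, rfl⟩
      obtain ⟨p, hp1, q, hq1, h⟩ := hdec v
      rw [h, add_comm]
      refine Submodule.add_mem_sup ?_ (Lnu_maps hN hp1)
      obtain ⟨c, rfl⟩ := hgen q hq1
      rw [map_smul]
      exact Submodule.smul_mem _ _ (Submodule.mem_span_singleton_self _)
    have h2 := Submodule.finrank_mono h1
    have h3 := Submodule.finrank_add_le_finrank_add_finrank (Submodule.span K {N e})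
      (eig R γ ⊤ (a * (a * α⁻¹)))
    have h4 : finrank K (Submodule.span K {N e}) ≤ 1 := by
      have h6 := finrank_span_finset_le_card (R := K) ({N e} : Finset X)
      rwa [Finset.coe_singleton, Finset.card_singleton] at h6
    have h5 := hsim _ hνa
    omega

include hk hγ halt hnd hωR ha hsim hconj hbr hsp in
/-- **An element of the Lie algebra of rank two with square zero.** -/
theorem small_N (hX : SI R (⊤ : Submodule K X))
    (hns : ∃ Y ∈ L, ¬∃ c : K, ∀ u : X, Y u = c • u)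
    (hne : ∃ α, α ≠ a ∧ eig R γ ⊤ α ≠ ⊥)
    (hsmall : (finrank K X - finrank K (eig R γ ⊤ a)) ^ 2 < 2 * finrank K (eig R γ ⊤ a)) :
    ∃ N ∈ L, N * N = 0 ∧ N ≠ 0 ∧ finrank K ((⊤ : Submodule K X).map N) ≤ 2 := by
  classical
  have hχ : χ γ ≠ 0 := χne γ
  have ha0 : a ≠ 0 := by
    rintro rfl
    rw [mul_zero] at ha
    exact hχ ha.symm
  have hneg := eig_neg hk hγ halt hnd hωR ha hsim ha0
  set A := others R γ k a with hA
  have hmemA : ∀ α, α ∈ A ↔ α ≠ a ∧ eig R γ ⊤ α ≠ ⊥ := fun α => mem_others hk hγ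
  -- generators
  have hgen : ∀ α, ∃ e, α ∈ A → (e ∈ eig R γ ⊤ α ∧ e ≠ 0 ∧ ∀ v ∈ eig R γ ⊤ α, ∃ c : K, v = c • e) := by
    intro α
    by_cases h : α ∈ A
    · obtain ⟨h1, h2⟩ := (hmemA α).1 h
      obtain ⟨e, he, hgen⟩ := exists_gen (hsim α h1)
      refine ⟨e, fun _ => ⟨he, ?_, hgen⟩⟩
      rintro rfl
      apply h2
      rw [eq_bot_iff]
      intro v hv
      obtain ⟨c, rfl⟩ := hgen v hv
      rw [smul_zero]
      exact Submodule.zero_mem _
    · exact ⟨0, fun h' => absurd h' h⟩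
  choose e he using hgen
  have hcard := card_others_le hk hγ (a := a) e (fun α hα => ⟨(he α hα).1, (he α hα).2.1⟩)
  rw [← hA] at hcard
  have hAne : A.Nonempty := by
    obtain ⟨α, h⟩ := hne
    exact ⟨α, (hmemA α).2 h⟩
  obtain ⟨α₁, hα₁⟩ := hAne
  have hone : finrank K (eig R γ ⊤ α₁) = 1 := by
    obtain ⟨h1, h2⟩ := (hmemA α₁).1 hα₁
    refine le_antisymm (hsim _ h1) ?_
    rw [Nat.one_le_iff_ne_zero]
    exact fun h3 => h2 (Submodule.finrank_eq_zero.1 h3)
  have hW := le_W0 hconj hbr hk hγ hnd hωR ha hsp hX (exists_Lnu hconj hk hγ hX hns hone)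
  -- the images
  let J : K → Submodule K X := fun α =>
    (Lnu R L γ (a * α⁻¹)).map (LinearMap.applyₗ (R := K) (e α))
  have hWJ : W0 R L γ a ≤ A.sup J := by
    rw [W0, Submodule.span_le]
    rintro _ ⟨ν, hν, hν0, N, hN, f, hf, rfl⟩
    by_cases hf0 : f = 0
    · rw [hf0, map_zero]
      exact Submodule.zero_mem _
    have h1 : a * ν⁻¹ ∈ A := by
      rw [hmemA]
      refine ⟨fun h => hν ?_, Submodule.ne_bot_iff _ |>.2 ⟨f, hf, hf0⟩⟩
      have h2 : a * (1 - ν) = 0 := by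
        have h3 : a * ν⁻¹ * ν = a * ν := by rw [h]
        rw [inv_mul_cancel_right₀ hν0] at h3
        linear_combination h3
      exact (sub_eq_zero.1 ((mul_eq_zero.1 h2).resolve_left ha0)).symm
    have h2 : J (a * ν⁻¹) ≤ A.sup J := Finset.le_sup h1
    apply h2
    obtain ⟨c, hc⟩ := (he _ h1).2.2 f hf
    refine ⟨c • N, Submodule.smul_mem _ c ?_, ?_⟩
    · rw [show a * (a * ν⁻¹)⁻¹ = ν by field_simp]
      exact hN
    · change (c • N) (e (a * ν⁻¹)) = N f
      rw [hc, map_smul]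
      rfl
  have hle : finrank K (eig R γ ⊤ a) ≤ ∑ α ∈ A, finrank K (J α) :=
    le_trans (Submodule.finrank_mono (le_trans hW hWJ)) (finrank_sup_le A J)
  obtain ⟨α, hαA, hα⟩ : ∃ α ∈ A, finrank K (eig R γ ⊤ a) ≤ A.card * finrank K (J α) := by
    by_contra hcon
    push Not at hcon
    have h1 : ∑ α ∈ A, A.card * finrank K (J α) < ∑ _α ∈ A, finrank K (eig R γ ⊤ a) :=
      Finset.sum_lt_sum_of_nonempty ⟨α₁, hα₁⟩ hcon
    rw [← Finset.mul_sum, Finset.sum_const, smul_eq_mul] at h1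
    exact absurd (Nat.mul_le_mul_left A.card hle) (not_le.2 h1)
  obtain ⟨hαa, hαb⟩ := (hmemA α).1 hαA
  have hα0 := eig_ne hαb
  have hαn : α ≠ -a := fun h => hαb (by rw [h]; exact hneg)
  have hν0 : a * α⁻¹ ≠ 0 := mul_ne_zero ha0 (inv_ne_zero hα0)
  have hLn : finrank K (J α) ≤ finrank K (Lnu R L γ (a * α⁻¹)) := Submodule.finrank_map_le _ _
  have hcA : A.card < 2 * finrank K (Lnu R L γ (a * α⁻¹)) := by
    have h1 : A.card ≤ finrank K X - finrank K (eig R γ ⊤ a) := by omega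
    have h2 : A.card ^ 2 < 2 * finrank K (eig R γ ⊤ a) := lt_of_le_of_lt (Nat.pow_le_pow_left h1 2) hsmall
    have h3 : A.card * A.card < A.card * (2 * finrank K (Lnu R L γ (a * α⁻¹))) := by
      calc A.card * A.card = A.card ^ 2 := by ring
        _ < 2 * finrank K (eig R γ ⊤ a) := h2
        _ ≤ 2 * (A.card * finrank K (J α)) := by omega
        _ = A.card * (2 * finrank K (J α)) := by ring
        _ ≤ A.card * (2 * finrank K (Lnu R L γ (a * α⁻¹))) :=
          Nat.mul_le_mul_left _ (Nat.mul_le_mul_left _ hLn)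
    exact lt_of_mul_lt_mul_left h3 (Nat.zero_le _)
  -- half of the other eigenvalues
  let ι : K → K := fun β => a * α * β⁻¹
  have hι0 : ∀ β, β ≠ 0 → ι (ι β) = β := by
    intro β hβ
    change a * α * (a * α * β⁻¹)⁻¹ = β
    field_simp
  have hιa : ∀ β, β ≠ 0 → β ≠ a → ι β ≠ α := by
    intro β hβ hβa h
    apply hβa
    have h1 : a * α * β⁻¹ = α := h
    have h2 : α * (a - β) = 0 := by
      have h3 : a * α * β⁻¹ * β = α * β := by rw [h1]
      rw [inv_mul_cancel_right₀ hβ] at h3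
      linear_combination h3
    exact (sub_eq_zero.1 ((mul_eq_zero.1 h2).resolve_left hα0)).symm
  let B := A.filter fun β => β ≠ α ∧ ι β ∈ A
  have hmemB : ∀ β, β ∈ B ↔ β ∈ A ∧ β ≠ α ∧ ι β ∈ A := fun β => Finset.mem_filter
  obtain ⟨H, hHB, hH1, hH2⟩ := half ι B.card B rfl (fun β hβ => by
    obtain ⟨h1, h2, h3⟩ := (hmemB β).1 hβ
    have hβ0 := eig_ne ((hmemA β).1 h1).2
    refine ⟨(hmemB _).2 ⟨h3, hιa β hβ0 ((hmemA β).1 h1).1, ?_⟩, hι0 β hβ0⟩
    rw [hι0 β hβ0]
    exact h1)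
  have hBc : B.card + 1 ≤ A.card := by
    have h1 : B ⊆ A.erase α := fun β hβ => by
      obtain ⟨h1, h2, -⟩ := (hmemB β).1 hβ
      exact Finset.mem_erase.2 ⟨h2, h1⟩
    have h2 := Finset.card_le_card h1
    have h3 := Finset.card_erase_add_one hαA
    omega
  have hfix : (B.filter fun β => ι β = β).card ≤ 2 := by
    obtain ⟨s, hs⟩ := IsAlgClosed.exists_pow_nat_eq (a * α) (n := 2) (by norm_num)
    have h1 : (B.filter fun β => ι β = β) ⊆ {s, -s} := by
      intro β hβ
      obtain ⟨h1, h2⟩ := Finset.mem_filter.1 hβ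
      have hβ0 := eig_ne ((hmemA β).1 ((hmemB β).1 h1).1).2
      have h3 : a * α = β * β := (mul_inv_eq_iff_eq_mul₀ hβ0).1 h2
      have h4 : (β - s) * (β + s) = 0 := by linear_combination -h3 - hs
      rw [Finset.mem_insert, Finset.mem_singleton]
      rcases mul_eq_zero.1 h4 with h5 | h5
      · exact Or.inl (sub_eq_zero.1 h5)
      · exact Or.inr (eq_neg_of_add_eq_zero_left h5)
    exact le_trans (Finset.card_le_card h1) Finset.card_le_two
  have hHc : 2 * H.card ≤ A.card := by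
    obtain ⟨m, hm⟩ := even_others hk hγ halt hnd hωR ha hsim
    rw [← hA] at hm
    omega
  -- the element
  let T : (β : H) → Submodule K X := fun β => eig R γ ⊤ ((β : K) * (a * α⁻¹))
  let Φ : Lnu R L γ (a * α⁻¹) →ₗ[K] ((β : H) → T β) :=
    { toFun := fun N β => ⟨N.1 (e β), Lnu_maps N.2 (he β ((hmemB β).1 (hHB β.2)).1).1⟩
      map_add' := fun N M => by
        funext β
        apply Subtype.ext
        rfl
      map_smul' := fun c N => by
        funext β
        apply Subtype.ext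
        rfl }
  have hT : ∀ β : H, finrank K (T β) ≤ 1 := by
    intro β
    refine hsim _ fun h => ?_
    obtain ⟨h1, h2, -⟩ := (hmemB β).1 (hHB β.2)
    apply h2
    have h3 : a * ((β : K) - α) = 0 := by
      have h4 : (β : K) * (a * α⁻¹) * α = a * α := by rw [h]
      rw [show (β : K) * (a * α⁻¹) * α = β * a by field_simp] at h4
      linear_combination h4
    exact sub_eq_zero.1 ((mul_eq_zero.1 h3).resolve_left ha0)
  have hlt : finrank K ((β : H) → T β) < finrank K (Lnu R L γ (a * α⁻¹)) := by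
    rw [Module.finrank_pi_fintype]
    have h1 : ∑ β : H, finrank K (T β) ≤ ∑ _β : H, 1 := Finset.sum_le_sum fun β _ => hT β
    rw [Finset.sum_const, Finset.card_univ, Fintype.card_coe, smul_eq_mul, mul_one] at h1
    omega
  obtain ⟨N, hNk, hN0⟩ := Submodule.exists_mem_ne_zero_of_ne_bot
    (LinearMap.ker_ne_bot_of_finrank_lt (f := Φ) hlt)
  have hNH : ∀ β ∈ H, N.1 (e β) = 0 := by
    intro β hβ
    have h1 := congrFun (LinearMap.mem_ker.1 hNk) ⟨β, hβ⟩
    exact congrArg Subtype.val h1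
  have hkill : ∀ β, β ≠ a → β ≠ α → ∀ u ∈ eig R γ ⊤ β, N.1 u = 0 := by
    intro β hβa hβα u hu
    by_cases hu0 : u = 0
    · rw [hu0, map_zero]
    have hβb : eig R γ ⊤ β ≠ ⊥ := Submodule.ne_bot_iff _ |>.2 ⟨u, hu, hu0⟩
    have hβA : β ∈ A := (hmemA β).2 ⟨hβa, hβb⟩
    have hβ0 := eig_ne hβb
    obtain ⟨c, rfl⟩ := (he β hβA).2.2 u hu
    rw [map_smul]
    suffices h : N.1 (e β) = 0 by rw [h, smul_zero]
    by_cases hβH : β ∈ H
    · exact hNH β hβH
    refine zero_of_dual hωR hk hγ (fun u _ => Submodule.mem_top)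
      (fun u _ h => hnd u fun v => h v Submodule.mem_top) (Lnu_maps N.2 (he β hβA).1)
      fun δ hδ w hw => ?_
    have hδ1 : δ = ι β := by
      change δ = a * α * β⁻¹
      have h1 : β * (a * α⁻¹) * δ = a * a := by rw [hδ, ha]
      have h2 : a * α⁻¹ * (β * δ - a * α) = 0 := by
        have h3 : a * α⁻¹ * (a * α) = a * a := by field_simp
        linear_combination h1 - h3
      have h3 := (mul_eq_zero.1 h2).resolve_left hν0
      rw [eq_mul_inv_iff_mul_eq₀ hβ0]
      linear_combination h3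
    by_cases hw0 : w = 0
    · rw [hw0, map_zero]
    have hδb : eig R γ ⊤ δ ≠ ⊥ := Submodule.ne_bot_iff _ |>.2 ⟨w, hw, hw0⟩
    have hδa : δ ≠ a := by
      intro h
      apply hβα
      rw [h] at hδ
      have h2 : a * a * (β - α) = 0 := by
        have h3 : β * (a * α⁻¹) * a * α = a * a * α := by rw [hδ, ha]
        rw [show β * (a * α⁻¹) * a * α = a * a * β by field_simp] at h3
        linear_combination h3
      exact sub_eq_zero.1 ((mul_eq_zero.1 h2).resolve_left (mul_ne_zero ha0 ha0))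
    have hδA : δ ∈ A := (hmemA δ).2 ⟨hδa, hδb⟩
    have hιH : ι β ∈ H := by
      rcases hH1 β ((hmemB β).2 ⟨hβA, hβα, by rw [← hδ1]; exact hδA⟩) with h | h
      · exact absurd h hβH
      · exact h
    have h1 := hsp N.1 N.2.1 (e β) w
    obtain ⟨c', rfl⟩ := (he δ hδA).2.2 w hw
    rw [hδ1] at h1 ⊢
    rw [map_smul N.1, hNH _ hιH, smul_zero, map_zero, add_zero] at h1
    exact h1
  obtain ⟨h1, h2⟩ := rank_two hk hγ halt hnd hωR ha hsim hsp ha0 hαa hα0 hαn N.2 hkill
  exact ⟨N.1, N.2.1, h1, fun h => hN0 (Subtype.ext h), h2⟩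

end Pool.Agent.TH118.SG
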