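import Mathlib
import Pool.Agent.TH118.SG.Two

/-!
# The whole symplectic Lie algebra
-/

set_option linter.unusedSectionVars false

namespace Pool.Agent.TH118.SG

open Module Pool.Agent.H204R3.SP Pool.Agent.H204R3.GP Pool.Agent.W522.U Pool.Agent.TH118.CR
open Pool.Agent.TH118.CU

variable {K : Type} [Field K] [CharZero K] [IsAlgClosed K] {X : Type} [AddCommGroup X]
  [Module K X] [FiniteDimensional K X] {Γ : Type} [Group Γ] {R : Representation K Γ X}
  {χ : Γ →* K} {L : Submodule K (End K X)}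

/-- A nilpotent element of rank at most two generates the symplectic Lie algebra. -/
theorem full_of_N {ω : X →ₗ[K] X →ₗ[K] K} (halt : ∀ v, ω v v = 0)
    (hnd : ∀ u, (∀ v, ω u v = 0) → u = 0)
    (hωR : ∀ g u v, ω (R g u) (R g v) = χ g * ω u v)
    (hconj : ∀ g : Γ, ∀ Y ∈ L, R g * Y * R g⁻¹ ∈ L)
    (hbr : ∀ Y ∈ L, ∀ Z ∈ L, Y * Z - Z * Y ∈ L)
    (hsp : ∀ Y ∈ L, ∀ u w, ω (Y u) w + ω u (Y w) = 0)
    (hX : SI R (⊤ : Submodule K X)) {N : End K X} (hN : N ∈ L) (hN2 : N * N = 0) (hN0 : N ≠ 0)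
    (hrk : finrank K ((⊤ : Submodule K X).map N) ≤ 2) :
    ∀ u v, Pool.Agent.H204R3.SP.SS ω u v ∈ L := by
  have hnd' : ∀ u, (∀ v, ω v u = 0) → u = 0 := by
    intro u h
    refine hnd u fun v => ?_
    have h1 := halt (u + v)
    simp only [map_add, LinearMap.add_apply, halt, zero_add, add_zero, h v] at h1
    exact h1
  obtain ⟨a, b, hab, hNi⟩ := Pool.Agent.W528.Tor.exists_SS ω halt hnd' (hsp N hN) hN2
    (by rwa [LinearMap.range_eq_map])
  refine nrm_core ω L R χ halt hnd' hωR ?_ hbr hconj hsp hab ?_ ?_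
  · intro Δ' hΔ' W hW
    exact hX.2.2 W le_top ⟨Δ', hΔ', hW⟩
  · rw [← hNi]
    exact hN0
  · rw [← hNi]
    exact hN

end Pool.Agent.TH118.SG
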