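import Mathlib
import Pool.Agent.TH118.SG.Full

/-!
# Multilinear maps and generalized eigenspaces
-/

set_option linter.unusedSectionVars false

namespace Pool.Agent.TH118.SG

open Module Finset Function

variable {K : Type} [Field K] {T : Type} [AddCommGroup T] [Module K T] {E : Type}
  [AddCommGroup E] [Module K E]

theorem mem_gen {f : End K T} {α : K} {x : T} :
    x ∈ f.maxGenEigenspace α ↔ ∃ n : ℕ, ((f - algebraMap K (End K T) α) ^ n) x = 0 := by
  rw [Module.End.mem_maxGenEigenspace]
  rfl

/-- Generalized eigenspaces of powers. -/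
theorem gen_pow {f : End K T} {α : K} {x : T} (hx : x ∈ f.maxGenEigenspace α) (M : ℕ) :
    x ∈ (f ^ M).maxGenEigenspace (α ^ M) := by
  obtain ⟨n, hn⟩ := mem_gen.1 hx
  rw [mem_gen]
  refine ⟨n, ?_⟩
  have h1 : Commute f (algebraMap K (End K T) α) := (Algebra.commutes α f).symm
  obtain ⟨q, hq⟩ : ∃ q : End K T, f ^ M - algebraMap K (End K T) (α ^ M) =
      q * (f - algebraMap K (End K T) α) ∧ Commute q (f - algebraMap K (End K T) α) := by
    refine ⟨∑ i ∈ range M, f ^ i * algebraMap K (End K T) α ^ (M - 1 - i), ?_, ?_⟩
    · rw [map_pow]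
      exact (h1.geom_sum₂_mul M).symm
    · refine Commute.sum_left _ _ _ fun i _ => ?_
      have h2 : Commute f (f - algebraMap K (End K T) α) := (Commute.refl f).sub_right h1
      have h3 : Commute (algebraMap K (End K T) α) (f - algebraMap K (End K T) α) :=
        Algebra.commutes α _
      exact (h2.pow_left i).mul_left (h3.pow_left _)
  rw [hq.1, hq.2.mul_pow, Module.End.mul_apply, hn, map_zero]

variable {S : Type} [Fintype S] [DecidableEq S]

/-- The image of generalized eigenvectors. -/
theorem multi_gen_aux {g : End K T} {g' : End K E} {h : MultilinearMap K (fun _ : S => T) E}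
    (hg : ∀ v, h (fun j => g (v j)) = g' (h v)) (a : S → K) : ∀ (n : ℕ) (v : S → T) (m : S → ℕ),
    (∀ j, ((g - algebraMap K (End K T) (a j)) ^ m j) (v j) = 0) → ∑ j, m j ≤ n →
    ((g' - algebraMap K (End K E) (∏ j, a j)) ^ (n + 1)) (h v) = 0 := by
  intro n
  induction n with
  | zero =>
    intro v m hm hsum
    have h0 : ∀ j, v j = 0 := by
      intro j
      have h1 : m j = 0 := by
        have h2 := Finset.single_le_sum (f := m) (fun i _ => Nat.zero_le _) (Finset.mem_univ j)
        omega
      have h2 := hm j
      rw [h1, pow_zero, Module.End.one_apply] at h2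
      exact h2
    rw [zero_add, pow_one, LinearMap.sub_apply, ← hg, Module.algebraMap_end_apply]
    by_cases hS : Nonempty S
    · obtain ⟨j⟩ := hS
      rw [h.map_coord_zero j (by rw [h0, map_zero]), h.map_coord_zero j (h0 j), smul_zero, sub_zero]
    · have hS' : IsEmpty S := not_nonempty_iff.1 hS
      rw [Finset.univ_eq_empty, Finset.prod_empty, one_smul, sub_eq_zero]
      congr 1
      exact Subsingleton.elim _ _
  | succ n ih =>
    intro v m hm hsum
    have h1 : (g' - algebraMap K (End K E) (∏ j, a j)) (h v) =
        ∑ s ∈ (univ : Finset (Finset S)).erase univ, h (s.piecewise (fun j => a j • v j)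
          (fun j => (g - algebraMap K (End K T) (a j)) (v j))) := by
      have h2 : (fun j => g (v j)) = (fun j => a j • v j) +
          fun j => (g - algebraMap K (End K T) (a j)) (v j) := by
        funext j
        rw [Pi.add_apply, LinearMap.sub_apply, Module.algebraMap_end_apply, add_sub_cancel]
      rw [LinearMap.sub_apply, ← hg, h2, h.map_add_univ, ← Finset.add_sum_erase _ _
        (Finset.mem_univ (univ : Finset S)), Finset.piecewise_univ, h.map_smul_univ,
        Module.algebraMap_end_apply, add_sub_cancel_left]
    rw [pow_succ, Module.End.mul_apply, h1, map_sum]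
    refine Finset.sum_eq_zero fun s hs => ?_
    have hsu : s ≠ univ := Finset.ne_of_mem_erase hs
    by_cases h0 : ∃ i, i ∉ s ∧ m i = 0
    · obtain ⟨i, hi, hmi⟩ := h0
      have h2 := hm i
      rw [hmi, pow_zero, Module.End.one_apply] at h2
      rw [h.map_coord_zero i (by rw [Finset.piecewise_eq_of_notMem _ _ _ hi, h2, map_zero]),
        map_zero]
    · push Not at h0
      refine ih _ (fun j => if j ∈ s then m j else m j - 1) (fun j => ?_) ?_
      · by_cases hj : j ∈ s
        · rw [if_pos hj, Finset.piecewise_eq_of_mem _ _ _ hj, map_smul, hm j, smul_zero]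
        · rw [if_neg hj, Finset.piecewise_eq_of_notMem _ _ _ hj, ← Module.End.mul_apply, ← pow_succ,
            Nat.sub_add_cancel (Nat.one_le_iff_ne_zero.2 (h0 j hj))]
          exact hm j
      · obtain ⟨i, hi⟩ : ∃ i, i ∉ s := by
          by_contra hcon
          push Not at hcon
          exact hsu (Finset.eq_univ_of_forall hcon)
        have h2 : ∑ j, (if j ∈ s then m j else m j - 1) < ∑ j, m j := by
          refine Finset.sum_lt_sum (fun j _ => ?_) ⟨i, Finset.mem_univ i, ?_⟩
          · split_ifs <;> omega
          · have := h0 i hi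
            rw [if_neg hi]
            omega
        omega

theorem multi_gen {g : End K T} {g' : End K E} {h : MultilinearMap K (fun _ : S => T) E}
    (hg : ∀ v, h (fun j => g (v j)) = g' (h v)) (a : S → K) {v : S → T}
    (hv : ∀ j, v j ∈ g.maxGenEigenspace (a j)) : h v ∈ g'.maxGenEigenspace (∏ j, a j) := by
  have h1 : ∀ j, ∃ n : ℕ, ((g - algebraMap K (End K T) (a j)) ^ n) (v j) = 0 := fun j =>
    mem_gen.1 (hv j)
  choose m hm using h1
  exact mem_gen.2 ⟨_, multi_gen_aux hg a _ v m hm le_rfl⟩

section ops

variable [IsAlgClosed K]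

open scoped Classical in
theorem gen_internal [FiniteDimensional K E] (f : End K E) :
    DirectSum.IsInternal fun β : K => f.maxGenEigenspace β := by
  exact DirectSum.isInternal_submodule_of_iSupIndep_of_iSup_eq_top
    (Module.End.independent_maxGenEigenspace f) (Module.End.iSup_maxGenEigenspace_eq_top f)

/-- The operator which is the scalar `t β` on the generalized eigenspace for `β`. -/
theorem exists_op [FiniteDimensional K E] (f : End K E) (t : K → K) :
    ∃ Y : End K E, ∀ β, ∀ x ∈ f.maxGenEigenspace β, Y x = t β • x := by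
  classical
  let e := LinearEquiv.ofBijective (DirectSum.coeLinearMap fun β : K => f.maxGenEigenspace β)
    (gen_internal f)
  let D : (DirectSum K fun β => f.maxGenEigenspace β) →ₗ[K] E :=
    DirectSum.toModule K K E fun β => t β • (f.maxGenEigenspace β).subtype
  refine ⟨D ∘ₗ e.symm.toLinearMap, fun β x hx => ?_⟩
  have h1 : e.symm x = DirectSum.lof K K (fun β => f.maxGenEigenspace β) β ⟨x, hx⟩ := by
    rw [LinearEquiv.symm_apply_eq]
    change x = DirectSum.coeLinearMap (fun β : K => f.maxGenEigenspace β) _
    rw [DirectSum.coeLinearMap_lof]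
  rw [LinearMap.comp_apply, LinearEquiv.coe_coe, h1, DirectSum.toModule_lof, LinearMap.smul_apply]
  rfl

/-- Two operators which agree on the generalized eigenspaces are equal. -/
theorem op_ext [FiniteDimensional K E] (f : End K E) {Y Z : End K E}
    (h : ∀ β, ∀ x ∈ f.maxGenEigenspace β, Y x = Z x) : Y = Z := by
  apply LinearMap.ext
  intro x
  have hx : x ∈ ⨆ β, f.maxGenEigenspace β := by
    rw [Module.End.iSup_maxGenEigenspace_eq_top f]
    exact Submodule.mem_top
  induction hx using Submodule.iSup_induction' with
  | mem β x hx => exact h β x hx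
  | zero => rw [map_zero, map_zero]
  | add x y _ _ hx hy => rw [map_add, map_add, hx, hy]

end ops

end Pool.Agent.TH118.SG
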