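import Mathlib
import Pool.Agent.TH118.SG.Deriv
import Pool.Agent.TH125.Gal.Node

/-!
# Pairs of operators compatible with all equivariant maps
-/

set_option linter.unusedSectionVars false

namespace Pool.Agent.TH118.SG

open Module Finset Function Pool.Agent.TH125.Gal

variable {K : Type} [Field K] [CharZero K] [IsAlgClosed K] {T : Type} [AddCommGroup T]
  [Module K T] [FiniteDimensional K T] {E : Type} [AddCommGroup E] [Module K E]
  [FiniteDimensional K E] {S : Type} [Fintype S] [DecidableEq S] {G : Type} [Group G]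

/-- The triples `(Y, c, Y')` such that `Y` multiplies the form by `c` and the pair `(Y, Y')` is
compatible with all equivariant maps. -/
def PP (S : Type) [Fintype S] [DecidableEq S] (B : T →ₗ[K] T →ₗ[K] K) (ρ : G →* (T →ₗ[K] T))
    (σ : G →* (E →ₗ[K] E)) : Submodule K (End K T × K × End K E) where
  carrier := {p | (∀ x y, B (p.1 x) y + B x (p.1 y) = p.2.1 * B x y) ∧
    ∀ h : MultilinearMap K (fun _ : S => T) E, Eqv ρ σ h → ∀ v,
      ∑ j, h (update v j (p.1 (v j))) = p.2.2 (h v)}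
  zero_mem' := by
    refine ⟨fun x y => by simp, fun h _ v => ?_⟩
    refine Finset.sum_eq_zero fun j _ => ?_
    exact h.map_coord_zero j (by simp)
  add_mem' := by
    rintro ⟨X, c, X'⟩ ⟨Y, d, Y'⟩ ⟨hX, hX'⟩ ⟨hY, hY'⟩
    refine ⟨fun x y => ?_, fun h hh v => ?_⟩
    · change B ((X + Y) x) y + B x ((X + Y) y) = (c + d) * B x y
      have h1 := hX x y
      have h2 := hY x y
      rw [LinearMap.add_apply, LinearMap.add_apply, map_add, map_add, LinearMap.add_apply]
      linear_combination h1 + h2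
    · have h1 := hX' h hh v
      have h2 := hY' h hh v
      change ∑ j, h (update v j ((X + Y) (v j))) = (X' + Y') (h v)
      simp only [LinearMap.add_apply, MultilinearMap.map_update_add, Finset.sum_add_distrib]
      rw [h1, h2]
  smul_mem' := by
    rintro a ⟨X, c, X'⟩ ⟨hX, hX'⟩
    refine ⟨fun x y => ?_, fun h hh v => ?_⟩
    · change B ((a • X) x) y + B x ((a • X) y) = (a * c) * B x y
      have h1 := hX x y
      rw [LinearMap.smul_apply, LinearMap.smul_apply, map_smul, map_smul, LinearMap.smul_apply,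
        smul_eq_mul, smul_eq_mul]
      linear_combination a * h1
    · have h1 := hX' h hh v
      change ∑ j, h (update v j ((a • X) (v j))) = (a • X') (h v)
      simp only [LinearMap.smul_apply, MultilinearMap.map_update_smul]
      rw [← Finset.smul_sum, h1]

variable {B : T →ₗ[K] T →ₗ[K] K} {ρ : G →* (T →ₗ[K] T)} {σ : G →* (E →ₗ[K] E)} {μ : G →* K}
  (hB : ∀ g x y, B (ρ g x) (ρ g y) = μ g * B x y)

theorem mem_PP {Y : End K T} {c : K} {Y' : End K E} : (Y, c, Y') ∈ PP S B ρ σ ↔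
    (∀ x y, B (Y x) y + B x (Y y) = c * B x y) ∧
    ∀ h : MultilinearMap K (fun _ : S => T) E, Eqv ρ σ h → ∀ v,
      ∑ j, h (update v j (Y (v j))) = Y' (h v) := Iff.rfl

theorem LL_of_PP {Y : End K T} (h : (Y, (0 : K), (0 : End K E)) ∈ PP S B ρ σ) :
    Y ∈ LL S B ρ σ := by
  obtain ⟨h1, h2⟩ := mem_PP.1 h
  refine ⟨fun x y => by rw [h1, zero_mul], fun h hh v => ?_⟩
  rw [h2 h hh v, LinearMap.zero_apply]

theorem rinv (γ : G) (x : T) : ρ γ (ρ γ⁻¹ x) = x := by
  rw [← Module.End.mul_apply, ← map_mul, mul_inv_cancel, map_one]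
  rfl

include hB in
theorem PP_conj {Y : End K T} {c : K} {Y' : End K E} (hp : (Y, c, Y') ∈ PP S B ρ σ) (γ : G) :
    (ρ γ * Y * ρ γ⁻¹, c, σ γ * Y' * σ γ⁻¹) ∈ PP S B ρ σ := by
  obtain ⟨hY, hY'⟩ := mem_PP.1 hp
  refine mem_PP.2 ⟨fun x y => ?_, fun h hh v => ?_⟩
  · have h1 := hY (ρ γ⁻¹ x) (ρ γ⁻¹ y)
    have h2 := hB γ (Y (ρ γ⁻¹ x)) (ρ γ⁻¹ y)
    have h3 := hB γ (ρ γ⁻¹ x) (Y (ρ γ⁻¹ y))
    have h4 := hB γ (ρ γ⁻¹ x) (ρ γ⁻¹ y)
    rw [rinv] at h2 h3
    rw [rinv, rinv] at h4
    simp only [Module.End.mul_apply]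
    rw [h2, h3, h4]
    linear_combination μ γ * h1
  · have h1 := hY' _ (eqv_twist hh γ) (fun j => ρ γ⁻¹ (v j))
    have e1 : ∀ w : S → T, ((σ γ⁻¹).compMultilinearMap (h.compLinearMap fun _ => ρ γ)) w =
        σ γ⁻¹ (h fun j => ρ γ (w j)) := fun _ => rfl
    simp only [e1] at h1
    have h2 : ∀ j, (fun i => ρ γ (update (fun j => ρ γ⁻¹ (v j)) j (Y (ρ γ⁻¹ (v j))) i)) =
        update v j ((ρ γ * Y * ρ γ⁻¹) (v j)) := by
      intro j
      funext i
      by_cases hi : i = j
      · subst hi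
        rw [update_self, update_self]
        rfl
      · rw [update_of_ne hi, update_of_ne hi, rinv]
    have h3 : (fun j => ρ γ (ρ γ⁻¹ (v j))) = v := funext fun j => rinv γ _
    simp only [h2, h3] at h1
    rw [← map_sum] at h1
    have h4 := congrArg (σ γ) h1
    rw [rinv] at h4
    exact h4

/-- The first components. -/
def LP (S : Type) [Fintype S] [DecidableEq S] (B : T →ₗ[K] T →ₗ[K] K) (ρ : G →* (T →ₗ[K] T))
    (σ : G →* (E →ₗ[K] E)) : Submodule K (End K T) :=
  (PP S B ρ σ).map (LinearMap.fst K _ _)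

theorem mem_LP {Y : End K T} : Y ∈ LP S B ρ σ ↔ ∃ c Y', (Y, c, Y') ∈ PP S B ρ σ := by
  constructor
  · rintro ⟨⟨Y, c, Y'⟩, h, rfl⟩
    exact ⟨c, Y', h⟩
  · rintro ⟨c, Y', h⟩
    exact ⟨_, h, rfl⟩

include hB in
theorem LP_conj (g : G) : ∀ Y ∈ LP S B ρ σ, ρ g * Y * ρ g⁻¹ ∈ LP S B ρ σ := by
  intro Y hY
  obtain ⟨c, Y', h⟩ := mem_LP.1 hY
  exact mem_LP.2 ⟨c, _, PP_conj hB h g⟩

include hB in
/-- The eigenvectors of the conjugation by `γ` are in the Lie algebra. -/
theorem LL_of_Lnu {γ : G} (hσ : σ γ = 1) {ν : K} (hν : ν ≠ 1) {N : End K T}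
    (hN : N ∈ Lnu (R := ρ) (LP S B ρ σ) γ ν) : N ∈ LL S B ρ σ := by
  obtain ⟨c, Y', h⟩ := mem_LP.1 hN.1
  have h1 := PP_conj hB h γ
  have hσ' : σ γ⁻¹ = 1 := by
    have h2 : σ γ * σ γ⁻¹ = 1 := by rw [← map_mul, mul_inv_cancel, map_one]
    rwa [hσ, one_mul] at h2
  rw [hσ, hσ', one_mul, mul_one] at h1
  have h2 : ρ γ * N * ρ γ⁻¹ = ν • N := by
    apply LinearMap.ext
    intro x
    rw [Module.End.mul_apply, Module.End.mul_apply, hN.2, rinv, LinearMap.smul_apply]
  rw [h2] at h1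
  have h3 := Submodule.sub_mem _ h1 h
  rw [Prod.mk_sub_mk, Prod.mk_sub_mk, sub_self, sub_self] at h3
  have h4 := LL_of_PP h3
  have h5 : ν • N - N = (ν - 1) • N := by rw [sub_smul, one_smul]
  rw [h5] at h4
  have h6 := Submodule.smul_mem _ (ν - 1)⁻¹ h4
  rwa [smul_smul, inv_mul_cancel₀ (sub_ne_zero.2 hν), one_smul] at h6

/-- A bilinear form as a multilinear map. -/
noncomputable def bm (B : T →ₗ[K] T →ₗ[K] K) : MultilinearMap K (fun _ : Fin 2 => T) K where
  toFun v := B (v 0) (v 1)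
  map_update_add' := by
    intro _ v i x y
    fin_cases i
    · simp
    · simp
  map_update_smul' := by
    intro _ v i c x
    fin_cases i
    · simp
    · simp

include hB in
/-- The operator attached to an element of the group. -/
theorem exists_PP (F : G) {u v : T} (hu0 : u ≠ 0) (hv0 : v ≠ 0) {al be : K}
    (hu : ρ F u = al • u) (hv : ρ F v = be • v) (hab : ∀ k : ℕ, 0 < k → al ^ k ≠ be ^ k) :
    ∃ Y ∈ LP S B ρ σ, ¬∃ c : K, ∀ x, Y x = c • x := by
  have hinj : Function.Injective (ρ F) := by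
    intro x y hxy
    have h1 := congrArg (ρ F⁻¹) hxy
    rw [← Module.End.mul_apply, ← Module.End.mul_apply, ← map_mul, inv_mul_cancel, map_one] at h1
    exact h1
  have hal : al ≠ 0 := by
    rintro rfl
    rw [zero_smul] at hu
    exact hu0 (hinj (by rw [hu, map_zero]))
  have hbe : be ≠ 0 := by
    rintro rfl
    rw [zero_smul] at hv
    exact hv0 (hinj (by rw [hv, map_zero]))
  obtain ⟨θ, hθ⟩ := Pool.Agent.TH118.CR.exists_add (Units.mk0 al hal * (Units.mk0 be hbe)⁻¹)
    (fun k hk h => hab k hk (by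
      rw [mul_pow, inv_pow, mul_inv_eq_one] at h
      exact congrArg Units.val h))
  have hθ' : ext0 θ al ≠ ext0 θ be := by
    intro h
    apply hθ
    rw [ofMul_mul, ofMul_inv, map_add, map_neg, ← ext0_ne θ hal, ← ext0_ne θ hbe, h,
      add_neg_cancel]
  obtain ⟨Y, hY⟩ := exists_op (ρ F) (ext0 θ)
  obtain ⟨Y', hY'⟩ := exists_op (σ F) (ext0 θ)
  have hmem : (Y, ext0 θ (μ F), Y') ∈ PP S B ρ σ := by
    refine mem_PP.2 ⟨fun x y => ?_, fun h hh v => ?_⟩
    · have h1 := deriv_op θ (ρ F) hinj (μ F • (1 : End K K)) hY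
        (Y' := ext0 θ (μ F) • (1 : End K K)) (fun β z hz => ?_) (h := bm B) (M := 1) one_pos
        (fun v => ?_) ![x, y]
      · rw [Fin.sum_univ_two] at h1
        simpa [bm] using h1
      · by_cases hz0 : z = 0
        · rw [hz0, map_zero, smul_zero]
        · have h2 : μ F = β := by
            obtain ⟨n, hn⟩ := mem_gen.1 hz
            have h3 : ∀ n : ℕ, ((μ F • (1 : End K K) - algebraMap K (End K K) β) ^ n) z =
                (μ F - β) ^ n * z := by
              intro n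
              induction n with
              | zero => simp
              | succ n ih =>
                rw [pow_succ', Module.End.mul_apply, ih, LinearMap.sub_apply, LinearMap.smul_apply,
                  Module.End.one_apply, Module.algebraMap_end_apply, smul_eq_mul, smul_eq_mul]
                ring
            rw [h3] at hn
            have h4 := (mul_eq_zero.1 hn).resolve_right hz0
            exact sub_eq_zero.1 (eq_zero_of_pow_eq_zero h4)
          rw [← h2, LinearMap.smul_apply, Module.End.one_apply]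
      · rw [pow_one, pow_one]
        change B (ρ F (v 0)) (ρ F (v 1)) = μ F • B (v 0) (v 1)
        rw [hB, smul_eq_mul]
    · obtain ⟨Δ, hΔ, h1⟩ := hh
      obtain ⟨M, hM, hFM⟩ := exists_pow hΔ F
      refine deriv_op θ (ρ F) hinj (σ F) hY hY' hM (fun v => ?_) v
      have h2 := h1 _ hFM v
      rw [map_pow, map_pow] at h2
      exact h2
  refine ⟨Y, mem_LP.2 ⟨_, _, hmem⟩, ?_⟩
  rintro ⟨c, hc⟩
  apply hθ'
  have hgen : ∀ (w : T) (α : K), ρ F w = α • w → w ∈ Module.End.maxGenEigenspace (ρ F) α := by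
    intro w α h
    refine mem_gen.2 ⟨1, ?_⟩
    rw [pow_one, LinearMap.sub_apply, h, Module.algebraMap_end_apply, sub_self]
  have h1 := hY al u (hgen u al hu)
  have h2 := hY be v (hgen v be hv)
  rw [hc] at h1 h2
  have h3 : c = ext0 θ al := by
    have h4 : (c - ext0 θ al) • u = 0 := by rw [sub_smul, h1, sub_self]
    exact sub_eq_zero.1 ((smul_eq_zero.1 h4).resolve_right hu0)
  have h5 : c = ext0 θ be := by
    have h4 : (c - ext0 θ be) • v = 0 := by rw [sub_smul, h2, sub_self]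
    exact sub_eq_zero.1 ((smul_eq_zero.1 h4).resolve_right hv0)
  rw [← h3, ← h5]

end Pool.Agent.TH118.SG
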