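import Mathlib
import Pool.Agent.TH118.SG.Pair
import Pool.Agent.TH118.SG.Full
import Pool.Agent.TH125.Gal.Final

/-!
# Elements of finite order with a small moving space: the symplectic Lie algebra
-/

set_option linter.unusedSectionVars false

namespace Pool.Agent.TH118.SG

open Module Finset Function Pool.Agent.TH125.Gal Pool.Agent.TH118.IS

variable {K : Type} [Field K] [CharZero K] [IsAlgClosed K] {T : Type} [AddCommGroup T]
  [Module K T] [FiniteDimensional K T] {E : Type} [AddCommGroup E] [Module K E]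
  [FiniteDimensional K E] {S : Type} [Fintype S] [DecidableEq S] {G : Type} [Group G]
  {B : T →ₗ[K] T →ₗ[K] K} {ρ : G →* (T →ₗ[K] T)} {σ : G →* (E →ₗ[K] E)} {χ : G →* K}

/-- Strong irreducibility in the two settings. -/
theorem SI_conv (hT : ∃ x : T, x ≠ 0) (h : Pool.Agent.TH125.Gal.SI ρ) :
    Pool.Agent.W522.U.SI (X := T) ρ (⊤ : Submodule K T) := by
  refine ⟨?_, ⟨⊤, inferInstance, fun g _ u _ => Submodule.mem_top⟩, fun W _ hW => ?_⟩
  · intro h1
    obtain ⟨x, hx⟩ := hT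
    apply hx
    rw [← Submodule.mem_bot K, ← h1]
    exact Submodule.mem_top
  · obtain ⟨Δ, hΔ, h2⟩ := hW
    exact h Δ hΔ W h2

/-- **The whole symplectic Lie algebra.** -/
theorem small_full (halt : ∀ v, B v v = 0) (hnd : ∀ u, (∀ v, B u v = 0) → u = 0)
    (hB : ∀ g x y, B (ρ g x) (ρ g y) = χ g * B x y) (hSI : Pool.Agent.TH125.Gal.SI ρ)
    {γ : G} (hχ : χ γ = 1) (hσ : σ γ = 1) {k : ℕ} (hk : 0 < k) (hγ : ρ γ ^ k = 1) {a : K}
    (ha : a * a = 1) (hsim : ∀ α, α ≠ a → finrank K (Module.End.eigenspace (ρ γ) α) ≤ 1)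
    (hne : ∃ α, α ≠ a ∧ Module.End.eigenspace (ρ γ) α ≠ ⊥)
    (hsmall : (finrank K T - finrank K (Module.End.eigenspace (ρ γ) a)) ^ 2 <
      2 * finrank K (Module.End.eigenspace (ρ γ) a))
    (F : G) {u v : T} (hu0 : u ≠ 0) (hv0 : v ≠ 0) {al be : K}
    (hu : ρ F u = al • u) (hv : ρ F v = be • v) (hab : ∀ k : ℕ, 0 < k → al ^ k ≠ be ^ k)
    (x y : T) : Pool.Agent.H204R3.SP.SS B x y ∈ LL S B ρ σ := by
  have hX := SI_conv ⟨u, hu0⟩ hSI
  have heig : ∀ α, eig (X := T) ρ γ ⊤ α = Module.End.eigenspace (ρ γ) α := fun α => top_inf_eq _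
  have hsim' : ∀ α, α ≠ a → finrank K (eig (X := T) ρ γ ⊤ α) ≤ 1 := by
    intro α hα
    rw [heig]
    exact hsim α hα
  obtain ⟨α, hα, hαb⟩ := hne
  have hα1 : finrank K (eig (X := T) ρ γ ⊤ α) = 1 := by
    refine le_antisymm (hsim' α hα) ?_
    rw [heig]
    exact Submodule.one_le_finrank_iff.2 hαb
  obtain ⟨Y, hY, hYn⟩ := exists_PP (S := S) (σ := σ) (μ := χ) hB F hu0 hv0 hu hv hab
  obtain ⟨ν, hν, hνb⟩ := exists_Lnu (R := ρ) (L := LP S B ρ σ) (γ := γ)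
    (fun g Y hY => LP_conj (μ := χ) hB g Y hY) hk hγ hX ⟨Y, hY, hYn⟩ hα1
  obtain ⟨N, hN, hN0⟩ := Submodule.exists_mem_ne_zero_of_ne_bot hνb
  have hNL : N ∈ LL S B ρ σ := LL_of_Lnu (μ := χ) hB hσ hν hN
  have hconj : ∀ g : G, ∀ Y ∈ LL S B ρ σ, ρ g * Y * ρ g⁻¹ ∈ LL S B ρ σ := by
    intro g Y hY
    have h1 := LL_conj (μ := χ) hB hY g
    exact h1
  have hbr : ∀ Y ∈ LL S B ρ σ, ∀ Z ∈ LL S B ρ σ, Y * Z - Z * Y ∈ LL S B ρ σ :=
    fun Y hY Z hZ => LL_bracket hY hZ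
  have hsp : ∀ Y ∈ LL S B ρ σ, ∀ u w, B (Y u) w + B u (Y w) = 0 := fun Y hY u w => hY.1 u w
  have hskew : ∀ x y, B x y = -B y x := by
    intro x y
    have h1 := halt (x + y)
    rw [map_add, map_add, LinearMap.add_apply, LinearMap.add_apply, halt, halt, zero_add,
      add_zero] at h1
    exact eq_neg_of_add_eq_zero_left (by rw [add_comm]; exact h1)
  have hns : ∃ Y ∈ LL S B ρ σ, ¬∃ c : K, ∀ u : T, Y u = c • u := by
    refine ⟨N, hNL, ?_⟩
    rintro ⟨c, hc⟩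
    apply hN0
    have hc0 : c = 0 := by
      have h2 : ∃ y, B u y ≠ 0 := by
        by_contra hcon
        push Not at hcon
        exact hu0 (hnd u hcon)
      obtain ⟨y, hy⟩ := h2
      have h3 := hNL.1 u y
      rw [hc, hc, map_smul, map_smul, LinearMap.smul_apply, smul_eq_mul] at h3
      have h4 : (2 * c) * B u y = 0 := by linear_combination h3
      exact (mul_eq_zero.1 ((mul_eq_zero.1 h4).resolve_right hy)).resolve_left two_ne_zero
    apply LinearMap.ext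
    intro z
    rw [hc, hc0, zero_smul, LinearMap.zero_apply]
  obtain ⟨M, hM, hM2, hM0, hMr⟩ := small_N (R := ρ) (χ := χ) (L := LL S B ρ σ) hk hγ halt hnd hB
    (by rw [hχ]; exact ha) hsim' hconj hbr hsp hX hns ⟨α, hα, by rw [heig]; exact hαb⟩
    (by rw [heig]; exact hsmall)
  exact full_of_N (R := ρ) (χ := χ) halt hnd hB hconj hbr hsp hX hM hM2 hM0 hMr x y

end Pool.Agent.TH118.SG
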