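import Pool.Agent.TH125.Gal.Pub

/-!
# Families of varieties with elements of small rank: definitions
-/

open CategoryTheory AlgebraicGeometry

universe u

namespace Pool.Agent.TH118.SG

open Pool.Agent.TH125.Gal

section Alg

variable {K : Type} [Field K] {A : Type} [Ring A] [Algebra K A] {Γ : Type} [Group Γ]

/-- The vectors `t` of `T` with `g t = b t`. -/
def eigT (T : Submodule K A) (ρ : Γ →* (A ≃ₐ[K] A)) (g : Γ) (b : K) : Submodule K A where
  carrier := {t | t ∈ T ∧ ρ g t = b • t}
  zero_mem' := ⟨T.zero_mem, by rw [map_zero, smul_zero]⟩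
  add_mem' := fun {x y} hx hy => ⟨T.add_mem hx.1 hy.1, by rw [map_add, hx.2, hy.2, smul_add]⟩
  smul_mem' := fun c {x} hx => ⟨T.smul_mem c hx.1, by rw [map_smul, hx.2, smul_comm]⟩

/-- `g` acts on `T` by a unipotent map different from the identity, with `(g - 1) ^ 2 = 0` and the
rank of `g - 1` at most two. -/
def UnipAct (T : Submodule K A) (ρ : Γ →* (A ≃ₐ[K] A)) (g : Γ) : Prop :=
  (∃ t ∈ T, ρ g t ≠ t) ∧ (∀ t ∈ T, ρ g (ρ g t - t) = ρ g t - t) ∧
    Module.finrank K (T.map ((ρ g).toLinearMap - LinearMap.id)) ≤ 2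

/-- `g` acts on `T` with finite order; for `a = 1` or `a = -1` it is not the multiplication by `a`
on `T`, the eigenspaces in `T` for the eigenvalues different from `a` have dimension at most one, and
the codimension `c` and the dimension `d` of the eigenspace for `a` in `T` satisfy `c ^ 2 < 2 d`. -/
def SmallAct (T : Submodule K A) (ρ : Γ →* (A ≃ₐ[K] A)) (g : Γ) : Prop :=
  (∃ k : ℕ, 0 < k ∧ ∀ t ∈ T, ρ (g ^ k) t = t) ∧
    ∃ a : K, a * a = 1 ∧ (∃ t ∈ T, ρ g t ≠ a • t) ∧
      (∀ b, b ≠ a → Module.finrank K (eigT T ρ g b) ≤ 1) ∧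
      (Module.finrank K T - Module.finrank K (eigT T ρ g a)) ^ 2 <
        2 * Module.finrank K (eigT T ρ g a)

/-- Some element has two eigenvalues on `T` whose quotient is not a root of unity. -/
def HyperbolicAct (T : Submodule K A) (ρ : Γ →* (A ≃ₐ[K] A)) : Prop :=
  ∃ F : Γ, ∃ x ∈ T, ∃ y ∈ T, x ≠ 0 ∧ y ≠ 0 ∧ ∃ a b : K, ρ F x = a • x ∧ ρ F y = b • y ∧
    ∀ k : ℕ, 0 < k → a ^ k ≠ b ^ k

end Alg

open Pool.Agent.H914 Pool.Agent.H914.VarClass Pool.Agent.H914.VarClass.Obj
  Pool.Agent.H914.WeilCohomology Pool.Agent.H281R3.HT Pool.Agent.W552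

variable {k : Type u} [Field k] {𝒱 : VarClass k} {ops : CycleOps 𝒱}
  {W : WeilCohomology.{u, 0} ops} {Γ : Type} [Group Γ]

/-- `Γ` acts on the cohomology of the odd-dimensional varieties `X i` like a Galois group; their
transcendental cohomology is in the middle degree and irreducible under all subgroups of finite
index; numerical and homological equivalence coincide for them; for every `i` there is an element
of `Γ` which acts on the transcendental cohomology of `X i` by a unipotent map of rank at most two,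
or with finite order and small codimension (and then some element of `Γ` is hyperbolic), and which
acts trivially on the cohomology of `Z` and of the other `X j` and by `χ`. -/
structure SmallRankFamily (χ : Γ →* W.Kˣ) {ι : Type} (X : ι → GVar W Γ) (Z : GVar W Γ) :
    Prop where
  odd : ∀ i, Odd (X i).X.dim
  galois : ∀ i, IsGaloisAct χ (W.gr (X i).X) (X i).X.dim (W.tr (X i).X)
    (algClasses W (X i).X) (X i).act
  homEqNum : ∀ i, HomEqNum W (X i).X
  middle : ∀ i, transcendental W (X i).X ≤ W.gr (X i).X (X i).X.dim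
  irreducible : ∀ i, IrredAct (X i).act (transcendental W (X i).X)
  small : ∀ i, ∃ g : Γ, (UnipAct (transcendental W (X i).X) (X i).act g ∨
      (SmallAct (transcendental W (X i).X) (X i).act g ∧
        HyperbolicAct (transcendental W (X i).X) (X i).act)) ∧
    χ g = 1 ∧ TrivAct Z.act g ∧ ∀ j, j ≠ i → TrivAct (X j).act g

end Pool.Agent.TH118.SG
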