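import Pool.Agent.TH125.Gal.Tower

/-!
# Products with powers: the step, for a general Lie algebra
-/

open CategoryTheory AlgebraicGeometry Finset Function

set_option linter.unusedSectionVars false

namespace Pool.Agent.TH118.SG

universe u v w x

open Pool.Agent.TH125.Gal

section

variable {K : Type u} [Field K] [CharZero K] {T : Type v} [AddCommGroup T] [Module K T]
  {E : Type w} [AddCommGroup E] [Module K E] {S : Type} [Fintype S] [DecidableEq S]
  {G : Type x} [Group G] {B : T →ₗ[K] T →ₗ[K] K} {ρ : G →* (T →ₗ[K] T)} {σ : G →* (E →ₗ[K] E)}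

open Pool.Agent.TH125.Nod in
/-- Equivariant multilinear maps in a basis, if the Lie algebra is the whole symplectic one. -/
theorem gen_mem' [Module.Finite K T] {s : ℤ} (hs1 : s = -1)
    (hsy : ∀ x y, B x y = (s : K) * B y x) (hnd : ∀ x, (∀ y, B x y = 0) → x = 0)
    (hall : ∀ u v, rk B v u + rk B u v ∈ LL S B ρ σ)
    {h : MultilinearMap K (fun _ : S => T) E} (hh : Eqv ρ σ h) {J : Type} [Fintype J]
    [DecidableEq J] (t : Module.Basis J K T) :
    (fun r : S → J => h fun j => t (r j)) ∈ Gen (fun _ : J => ())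
      (Matrix.of fun i j => B (t i) (t j)) (fun _ : S => ()) := by
  have hs : s = 1 ∨ s = -1 := Or.inr hs1
  -- the inverse of the Gram matrix
  have hBnd : LinearMap.BilinForm.Nondegenerate (LinearMap.flip B) := by
    refine ⟨fun x hx => hnd x fun y => ?_, fun x hx => hnd x fun y => hx y⟩
    rw [hsy, show B y x = 0 from hx y, mul_zero]
  obtain ⟨R, hR⟩ : ∃ R : Matrix J J K, (Matrix.of fun i j => B (t i) (t j)) * R = 1 := by
    refine ⟨Matrix.of fun j k =>
      t.repr (LinearMap.BilinForm.dualBasis (LinearMap.flip B) hBnd t k) j, ?_⟩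
    ext i k
    rw [Matrix.mul_apply, Matrix.one_apply]
    simp only [Matrix.of_apply]
    have h1 := LinearMap.BilinForm.apply_dualBasis_left (B := LinearMap.flip B) hBnd t k i
    rw [LinearMap.flip_apply] at h1
    rw [← h1]
    conv_rhs => rw [← t.sum_repr (LinearMap.BilinForm.dualBasis (LinearMap.flip B) hBnd t k)]
    rw [map_sum]
    refine Finset.sum_congr rfl fun j _ => ?_
    rw [map_smul, smul_eq_mul, mul_comm]
  refine fft (s := fun _ => s) (fun _ => hs) (fun a b hab => absurd rfl hab) (fun a b => hsy _ _)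
    hR (Fintype.card S) S (fun _ => ()) _ rfl (fun r hr => absurd (fun _ => rfl) hr) ?_ ?_
  · intro u v _ r
    have h1 := (hall (t u) (t v)).2 h hh (fun j => t (r j))
    rw [← h1]
    refine Finset.sum_congr rfl fun j _ => ?_
    have e1 : (rk B (t v) (t u) + rk B (t u) (t v)) (t (r j)) =
        B (t v) (t (r j)) • t u - ((s : K) * B (t u) (t (r j))) • t v := by
      rw [LinearMap.add_apply, rk_apply, rk_apply, hs1, Int.cast_neg, Int.cast_one, neg_one_mul,
        neg_smul, sub_neg_eq_add]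
    rw [e1, MultilinearMap.map_update_sub, MultilinearMap.map_update_smul,
      MultilinearMap.map_update_smul]
    have e2 : ∀ a, (fun i => t (update r j a i)) = update (fun i => t (r i)) j (t a) := by
      intro a
      funext i
      by_cases hi : i = j
      · subst hi
        rw [update_self, update_self]
      · rw [update_of_ne hi, update_of_ne hi]
    change B (t v) (t (r j)) • h (fun i => t (update r j u i)) -
      ((s : K) * B (t u) (t (r j))) • h (fun i => t (update r j v i)) = _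
    rw [e2, e2]
  · intro _ hs2
    rw [hs1] at hs2
    exact absurd hs2 (by decide)

end

open Pool.Agent.H914 Pool.Agent.H914.VarClass Pool.Agent.H914.VarClass.Obj
  Pool.Agent.H914.WeilCohomology Pool.Agent.H281R3.HT Pool.Agent.W552

variable {k : Type u} [Field k] {𝒱 : VarClass k} {ops : CycleOps 𝒱}
  {W : WeilCohomology.{u, v} ops} {P : Polarized 𝒱} {n : ℕ} {Z : 𝒱.Obj} {s : SB W P.X}
  {Γ : Type w} [Group Γ] {χ : Γ →* W.Kˣ} {ρ : Γ →* (W.H P.X ≃ₐ[W.K] W.H P.X)}
  {τ : Γ →* (W.H Z ≃ₐ[W.K] W.H Z)}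
  {υ : Γ →* (W.H ((nest ops n fun _ => P).X.prod Z) ≃ₐ[W.K]
    W.H ((nest ops n fun _ => P).X.prod Z))}

/-- The element `g` shows that all Lie algebras are the whole symplectic one. -/
def Full (hG : IsGalois W χ P.X ρ) (Z : 𝒱.Obj) (g : Γ) : Prop :=
  ∀ (S : Type) [Fintype S] [DecidableEq S] (σ : Γ →* (W.H Z →ₗ[W.K] W.H Z)), σ g = 1 →
    ∀ x y, rk (rform W P.X (transcendental W P.X)) y x + rk (rform W P.X (transcendental W P.X)) x y
      ∈ LL S (rform W P.X (transcendental W P.X)) (rhoT hG) σ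

section

variable {b : Module.Basis (Fin (n + 1) → Fin s.NC ⊕ Fin s.NT) W.K (W.H (nest ops n fun _ => P).X)}
  (hb : ∀ r, b r = mono (prj ops n fun _ => P) fun p => s.e (r p))

include hb in
/-- the coordinates at the free positions are invariant -/
theorem gen_free' (hDX : HomEqNum W P.X) (hmid : transcendental W P.X ≤ W.gr P.X P.X.dim)
    (hG : IsGalois W χ P.X ρ) (hP : IsPowAct W P n Z ρ τ υ) (hodd : Odd P.X.dim) {g : Γ}
    (hχ : χ g = 1) (hτ : τ g = 1) (hfull : Full hG Z g)
    {c : W.H ((nest ops n fun _ => P).X.prod Z)} {j : ℕ} {Δ : Subgroup Γ} (hΔ : Δ.FiniteIndex)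
    (hc : ∀ g ∈ Δ, υ g c = (χ g : W.K) ^ j • c) (c₀ : Fin (n + 1) → Option (Fin s.NC)) :
    (fun r : Free c₀ → Fin s.NT => hml s.e b c fun p => s.es (comb c₀ r p)) ∈
      Pool.Agent.TH125.Nod.Gen (fun _ : Fin s.NT => ())
        (Matrix.of fun i j => bil W P.X (s.uT i) (s.uT j)) (fun _ : Free c₀ => ()) := by
  have h1 := gen_mem' (S := Free c₀) (J := Fin s.NT) (s := (-1) ^ P.X.dim)
    (B := rform W P.X (transcendental W P.X)) hodd.neg_one_pow
    (fun a b => by
      rw [rform_apply, rform_apply, trans_symm hmid a.2 b.2]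
      push_cast
      rfl)
    (trans_nondeg hDX)
    (fun u v => hfull (Free c₀) (twist (lamb χ s c₀ j) τ) (by
      apply LinearMap.ext
      intro z
      rw [twist_apply, lamb_apply, hχ, hτ]
      simp) u v)
    (hS_eqv hb hG hP hΔ hc c₀) s.uT
  have h2 : (fun r : Free c₀ → Fin s.NT => hS s b c c₀ fun j => s.uT (r j)) =
      fun r : Free c₀ → Fin s.NT => hml s.e b c fun p => s.es (comb c₀ r p) := by
    funext r
    exact hS_comb c c₀ r
  rw [← h2]
  exact h1

include hb in
/-- **The structure of the Tate classes on products with powers.** -/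
theorem mem_Tgt' (hDX : HomEqNum W P.X) (hmid : transcendental W P.X ≤ W.gr P.X P.X.dim)
    (hG : IsGalois W χ P.X ρ) (hP : IsPowAct W P n Z ρ τ υ) (hodd : Odd P.X.dim) {g : Γ}
    (hχ : χ g = 1) (hτ : τ g = 1) (hfull : Full hG Z g)
    {c : W.H ((nest ops n fun _ => P).X.prod Z)} {j : ℕ} {Δ : Subgroup Γ} (hΔ : Δ.FiniteIndex)
    (hc : ∀ g ∈ Δ, υ g c = (χ g : W.K) ^ j • c) : c ∈ Tgt s n Z := by
  rw [expand b c, sum_patterns]
  refine Submodule.sum_mem _ fun c₀ _ => ?_
  have h1 := gen_free' hb hDX hmid hG hP hodd hχ hτ hfull hΔ hc c₀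
  have h2 : ∀ F ∈ Pool.Agent.TH125.Nod.Gen (fun _ : Fin s.NT => ())
      (Matrix.of fun i j => bil W P.X (s.uT i) (s.uT j)) (fun _ : Free c₀ => ()),
      ∑ r : Free c₀ → Fin s.NT, W.map (fst _ Z) (b (comb c₀ r)) * W.map (snd _ Z) (F r : W.H Z) ∈
        Tgt s n Z := by
    intro F hF
    induction hF using Submodule.span_induction with
    | mem F hF =>
      obtain ⟨m, e, w, rfl⟩ := hF
      obtain ⟨ε, S, i, x, hx, h3⟩ := mq_sum (s := s) (π := prj ops n fun _ => P) hmid e
      have h4 : ∑ r : Free c₀ → Fin s.NT, W.map (fst _ Z) (b (comb c₀ r)) *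
          W.map (snd _ Z) (Pool.Agent.TH125.Nod.gen (fun _ : Fin s.NT => ())
            (Matrix.of fun i j => bil W P.X (s.uT i) (s.uT j)) (fun _ : Free c₀ => ()) e w r) =
          (ε : W.K) • (W.map (fst _ Z) x * W.map (snd _ Z) w) := by
        rw [← smul_mul_assoc, ← map_smul, ← h3, map_sum, Finset.sum_mul]
        refine Finset.sum_congr rfl fun r _ => ?_
        rw [Pool.Agent.TH125.Nod.gen, if_pos (fun _ => rfl), map_smul, map_smul, mul_smul_comm,
          smul_mul_assoc, hb]
        rfl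
      rw [h4]
      exact Submodule.smul_mem _ _ (Submodule.subset_span ⟨S, i, x, w, hx, rfl⟩)
    | zero =>
      simp only [Pi.zero_apply, map_zero, mul_zero, Finset.sum_const_zero]
      exact Submodule.zero_mem _
    | add F F' _ _ hF hF' =>
      simp only [Pi.add_apply, map_add, mul_add, Finset.sum_add_distrib]
      exact Submodule.add_mem _ hF hF'
    | smul x F _ hF =>
      simp only [Pi.smul_apply, map_smul, mul_smul_comm]
      rw [← Finset.smul_sum]
      exact Submodule.smul_mem _ _ hF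
  have h3 := h2 _ h1
  simp only [coord_eq hb]
  exact h3

end

/-- **The Tate conjecture for products with powers.** -/
theorem tate_step' (hDX : HomEqNum W P.X) (hmid : transcendental W P.X ≤ W.gr P.X P.X.dim)
    (hG : IsGalois W χ P.X ρ) (hP : IsPowAct W P n Z ρ τ υ) (hodd : Odd P.X.dim) {g : Γ}
    (hχ : χ g = 1) (hτ : τ g = 1) (hfull : Full hG Z g)
    (hT : TateConj W χ Z τ) :
    TateConj W χ ((nest ops n fun _ => P).X.prod Z) υ := by
  obtain ⟨s⟩ := exists_SB hDX
  obtain ⟨b, hb⟩ := exists_monoBasis (ops := ops) P s.e n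
  intro j c hcj ⟨Δ, hΔ, hc⟩
  have h1 := mem_Tgt' hb hDX hmid hG hP hodd hχ hτ hfull hΔ hc
  obtain ⟨N, m, i, φ, hm, hφ, hexp⟩ := exists_expansion s n Z
  obtain ⟨Δ', hΔ', hfix⟩ := exists_fix hG s
  have h2 := hexp c h1
  -- uniqueness
  have huni : ∀ (x : Fin N → W.H Z) (l : Fin N),
      ctr (φ l) (∑ l', W.map (fst _ Z) (m l') * W.map (snd _ Z) (x l')) = x l := by
    intro x l
    rw [map_sum, Finset.sum_eq_single l]
    · rw [ctr_apply, hφ, if_pos rfl, one_smul]
    · intro l' _ hl
      rw [ctr_apply, hφ, if_neg hl, zero_smul]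
    · intro h
      exact absurd (Finset.mem_univ _) h
  set x : Fin N → W.H Z := fun l => ctr (φ l) c with hx
  -- degrees
  have hdeg : ∀ l, x l = if 2 * i l ≤ 2 * j then
      proj (W.isInternal Z) (2 * j - 2 * i l) (x l) else 0 := by
    intro l
    have h3 : c = ∑ l', W.map (fst _ Z) (m l') * W.map (snd _ Z)
        (if 2 * i l' ≤ 2 * j then proj (W.isInternal Z) (2 * j - 2 * i l') (x l') else 0) := by
      conv_lhs => rw [← proj_same (W.isInternal _) hcj, h2]
      rw [map_sum]
      refine Finset.sum_congr rfl fun l' _ => ?_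
      obtain ⟨S, hS⟩ := hm l'
      rw [proj_ext (hS.gr hmid)]
      by_cases h : 2 * i l' ≤ 2 * j
      · rw [if_pos h, if_pos h]
      · rw [if_neg h, if_neg h, map_zero, mul_zero]
    conv_lhs => rw [hx]
    beta_reduce
    rw [h3]
    exact huni _ l
  -- semi-invariance
  have hact : ∀ g ∈ Δ ⊓ Δ', ∀ l, (χ g : W.K) ^ i l • τ g (x l) = (χ g : W.K) ^ j • x l := by
    intro g hg l
    have h3 : υ g c = ∑ l', W.map (fst _ Z) (m l') * W.map (snd _ Z)
        ((χ g : W.K) ^ i l' • τ g (x l')) := by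
      conv_lhs => rw [h2]
      rw [map_sum]
      refine Finset.sum_congr rfl fun l' _ => ?_
      obtain ⟨S, hS⟩ := hm l'
      rw [map_mul, mq_act hmid hG hP (hfix g hg.2) hS, (hP g).2, map_smul, smul_mul_assoc,
        mul_smul_comm]
    have h4 := huni (fun l' => (χ g : W.K) ^ i l' • τ g (x l')) l
    rw [← h3, hc g hg.1, map_smul] at h4
    exact h4.symm
  have halg : ∀ l, x l ∈ algSpan W Z := by
    intro l
    by_cases h : 2 * i l ≤ 2 * j
    · have h3 := hdeg l
      rw [if_pos h] at h3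
      have h4 : x l ∈ W.gr Z (2 * (j - i l)) := by
        rw [h3, show 2 * (j - i l) = 2 * j - 2 * i l by omega]
        exact proj_mem _ _ _
      have h5 := hT (j - i l) (x l) h4 ⟨Δ ⊓ Δ', inferInstance, fun g hg => ?_⟩
      · exact Submodule.span_mono (Set.subset_iUnion _ _) h5
      · have h6 := hact g hg l
        have h7 : (χ g : W.K) ^ j = (χ g : W.K) ^ i l * (χ g : W.K) ^ (j - i l) := by
          rw [← pow_add]
          congr 1
          omega
        rw [h7, mul_smul] at h6
        exact smul_right_injective _ (pow_ne_zero _ (Units.ne_zero (χ g))) h6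
    · have h3 := hdeg l
      rw [if_neg h] at h3
      rw [h3]
      exact Submodule.zero_mem _
  refine algSpan_gr ?_ hcj
  rw [h2]
  refine Submodule.sum_mem _ fun l _ => ?_
  obtain ⟨S, hS⟩ := hm l
  exact algSpan_mul (algSpan_map _ (hS.alg hDX hmid)) (algSpan_map _ (halg l))

end Pool.Agent.TH118.SG
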