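import Pool.Agent.TH118.SG.Unip
import Pool.Agent.TH118.SG.Step
import Pool.Agent.TH118.SG.Defs

/-!
# Families of varieties with elements of small rank
-/

open CategoryTheory AlgebraicGeometry Finset

set_option linter.unusedSectionVars false

universe u

namespace Pool.Agent.TH118.SG

open Pool.Agent.TH125.Gal
open Pool.Agent.H914 Pool.Agent.H914.VarClass Pool.Agent.H914.VarClass.Obj
  Pool.Agent.H914.WeilCohomology Pool.Agent.H281R3.HT Pool.Agent.W552

variable {k : Type u} [Field k] {𝒱 : VarClass k} {ops : CycleOps 𝒱}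
  {W : WeilCohomology.{u, 0} ops} {Γ : Type} [Group Γ] {χ : Γ →* W.Kˣ}

section

variable {P : Polarized 𝒱} {ρ : Γ →* (W.H P.X ≃ₐ[W.K] W.H P.X)} {Z : 𝒱.Obj}

/-- the multiplier -/
noncomputable def mult (χ : Γ →* W.Kˣ) (n : ℕ) : Γ →* W.K := (Units.coeHom W.K).comp (χ ^ n)

theorem mult_apply (n : ℕ) (g : Γ) : mult χ n g = (χ g : W.K) ^ n := by
  simp [mult]

theorem rk_eq_SS {K T : Type} [Field K] [AddCommGroup T] [Module K T] (B : T →ₗ[K] T →ₗ[K] K)
    (x y : T) : rk B y x + rk B x y = Pool.Agent.H204R3.SP.SS B x y := by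
  rw [Pool.Agent.H204R3.SP.SS, add_comm]
  rfl

/-- The eigenspaces in `T`. -/
theorem finrank_eigT (hG : IsGalois W χ P.X ρ) (g : Γ) (b : W.K) :
    Module.finrank W.K (Module.End.eigenspace (rhoT hG g) b) =
      Module.finrank W.K (eigT (transcendental W P.X) ρ g b) := by
  have h1 : (Module.End.eigenspace (rhoT hG g) b).map (transcendental W P.X).subtype =
      eigT (transcendental W P.X) ρ g b := by
    ext t
    constructor
    · rintro ⟨x, hx, rfl⟩
      exact ⟨x.2, congrArg Subtype.val (Module.End.mem_eigenspace_iff.1 hx)⟩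
    · rintro ⟨ht, h2⟩
      exact ⟨⟨t, ht⟩, Module.End.mem_eigenspace_iff.2 (Subtype.ext h2), rfl⟩
  rw [← h1]
  exact (Submodule.finrank_map_subtype_eq _ _).symm

theorem form_alt (hmid : transcendental W P.X ≤ W.gr P.X P.X.dim) (hodd : Odd P.X.dim)
    (v : transcendental W P.X) : rform W P.X (transcendental W P.X) v v = 0 := by
  have h1 := trans_symm hmid v.2 v.2
  rw [hodd.neg_one_pow] at h1
  rw [rform_apply]
  have h2 : (2 : W.K) * bil W P.X v v = 0 := by linear_combination h1
  exact (mul_eq_zero.1 h2).resolve_left two_ne_zero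

/-- Unipotent elements of rank at most two. -/
theorem full_unip [IsAlgClosed W.K] (hDX : HomEqNum W P.X)
    (hmid : transcendental W P.X ≤ W.gr P.X P.X.dim)
    (hG : IsGalois W χ P.X ρ) (hodd : Odd P.X.dim)
    (hirr : StronglyIrreducible ρ (transcendental W P.X)) {g : Γ} (hχ : χ g = 1)
    (hg : UnipAct (transcendental W P.X) ρ g) : Full hG Z g := by
  intro S _ _ σ hσ x y
  obtain ⟨⟨t, ht, ht0⟩, h2, h3⟩ := hg
  rw [rk_eq_SS]
  have hmap : ((⊤ : Submodule W.K (transcendental W P.X)).map (rhoT hG g - 1)).map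
      (transcendental W P.X).subtype =
      (transcendental W P.X).map ((ρ g).toLinearMap - LinearMap.id) := by
    ext z
    constructor
    · rintro ⟨_, ⟨x, -, rfl⟩, rfl⟩
      exact ⟨x, x.2, rfl⟩
    · rintro ⟨x, hx, rfl⟩
      exact ⟨_, ⟨⟨x, hx⟩, Submodule.mem_top, rfl⟩, rfl⟩
  refine unip_full (χ := mult χ P.X.dim) (γ := g) (N := rhoT hG g - 1) (form_alt hmid hodd)
    (trans_nondeg hDX) (fun g a b => ?_) (SI_rhoT hG hirr) ?_ hσ (fun x => ?_) (fun x => ?_)
    ⟨⟨t, ht⟩, fun h => ?_⟩ ?_ x y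
  · rw [mult_apply]
    exact bil_act hG g a b
  · rw [mult_apply, hχ, Units.val_one, one_pow]
  · rw [LinearMap.sub_apply, Module.End.one_apply]
    abel
  · apply Subtype.ext
    have h4 := h2 x x.2
    rw [LinearMap.sub_apply, LinearMap.sub_apply, Module.End.one_apply, Module.End.one_apply]
    change ρ g (ρ g x - x) - (ρ g x - x) = 0
    rw [h4, sub_self]
  · apply ht0
    have h4 := congrArg Subtype.val h
    exact sub_eq_zero.1 h4
  · rw [← Submodule.finrank_map_subtype_eq, hmap]
    exact h3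

/-- Elements of finite order with small codimension. -/
theorem full_small [IsAlgClosed W.K] (hDX : HomEqNum W P.X)
    (hmid : transcendental W P.X ≤ W.gr P.X P.X.dim)
    (hG : IsGalois W χ P.X ρ) (hodd : Odd P.X.dim)
    (hirr : StronglyIrreducible ρ (transcendental W P.X)) {g : Γ} (hχ : χ g = 1)
    (hg : SmallAct (transcendental W P.X) ρ g) (hF : HyperbolicAct (transcendental W P.X) ρ) :
    Full hG Z g := by
  intro S _ _ σ hσ x y
  obtain ⟨⟨k, hk, hgk⟩, a, ha, ⟨t, ht, hta⟩, hsim, hsmall⟩ := hg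
  obtain ⟨F, u, hu, v, hv, hu0, hv0, al, be, hFu, hFv, hab⟩ := hF
  rw [rk_eq_SS]
  have hγ : rhoT hG g ^ k = 1 := by
    rw [← map_pow]
    apply LinearMap.ext
    intro x
    exact Subtype.ext (hgk x x.2)
  refine small_full (χ := mult χ P.X.dim) (γ := g) (form_alt hmid hodd)
    (trans_nondeg hDX) (fun g a b => ?_) (SI_rhoT hG hirr) ?_ hσ hk hγ ha (fun α hα => ?_) ?_ ?_ F
    (u := ⟨u, hu⟩) (v := ⟨v, hv⟩) (fun h => hu0 (congrArg Subtype.val h))
    (fun h => hv0 (congrArg Subtype.val h)) (Subtype.ext hFu) (Subtype.ext hFv) hab x y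
  · rw [mult_apply]
    exact bil_act hG g a b
  · rw [mult_apply, hχ, Units.val_one, one_pow]
  · rw [finrank_eigT]
    exact hsim α hα
  · by_contra hcon
    push Not at hcon
    apply hta
    obtain ⟨f, hf, hfs⟩ := Pool.Agent.TH118.IS.exists_comp (R := rhoT hG) (γ := g)
      (U := (⊤ : Submodule W.K (transcendental W P.X))) hk hγ (fun u _ => Submodule.mem_top)
      (v := ⟨t, ht⟩) Submodule.mem_top
    have h1 : (⟨t, ht⟩ : transcendental W P.X) ∈ Module.End.eigenspace (rhoT hG g) a := by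
      rw [← hfs]
      refine Submodule.sum_mem _ fun α _ => ?_
      have h2 := (hf α).2
      by_cases hα : α = a
      · subst hα
        exact h2
      · have h3 : f α = 0 := by
          have h4 := hcon α hα
          rw [← Submodule.mem_bot W.K, ← h4]
          exact h2
        rw [h3]
        exact Submodule.zero_mem _
    exact congrArg Subtype.val (Module.End.mem_eigenspace_iff.1 h1)
  · rw [finrank_eigT]
    exact hsmall

end

/-- **The Tate conjecture for towers.** -/
theorem tate_small [IsAlgClosed W.K] {ι : Type} {X : ι → GVar W Γ} {Z : GVar W Γ}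
    (h : SmallRankFamily χ X Z) {S : Set ι} {Y : GVar W Γ} (hY : GTower X Z S Y) :
    TateConjecture χ Y ↔ TateConjecture χ Z := by
  induction hY with
  | base => exact Iff.rfl
  | @step S Y Y' i n hT hi hn hP ih =>
    obtain ⟨g, hg, hχ, hZ, hj⟩ := h.small i
    rw [← ih]
    obtain ⟨υ, h1, h2⟩ := hP
    have hG := isGalois (h.galois i)
    have hfull : Full (P := ⟨(X i).X, 0⟩) hG Y.X g := by
      rcases hg with hg | ⟨hg, hF⟩
      · exact full_unip (P := ⟨(X i).X, 0⟩) (h.homEqNum i) (h.middle i) hG (h.odd i)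
          (h.irreducible i) hχ hg
      · exact full_small (P := ⟨(X i).X, 0⟩) (h.homEqNum i) (h.middle i) hG (h.odd i)
          (h.irreducible i) hχ hg hF
    constructor
    · refine tate_conv (P := ⟨(X i).X, 0⟩) (h.homEqNum i) ?_ (isPowAct h1 h2)
      intro h3
      obtain ⟨t, ht⟩ : ∃ t : W.H (X i).X, t ≠ 0 := by
        rcases hg with ⟨⟨t, ht, ht0⟩, -, -⟩ | ⟨-, F, x, hx, y, hy, hx0, -⟩
        · refine ⟨t, fun h => ht0 ?_⟩
          rw [h, map_zero]
        · exact ⟨x, hx0⟩
      apply ht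
      rw [← one_mul t, h3, zero_mul]
    · refine tate_step' (P := ⟨(X i).X, 0⟩) (h.homEqNum i) (h.middle i) hG
        (isPowAct h1 h2) (h.odd i) hχ ?_ hfull
      exact trivAct.1 (hT.trivAct (fun j hjS => hj j fun h' => hi (h' ▸ hjS)) hZ)

end Pool.Agent.TH118.SG
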