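import Mathlib
import Pool.Agent.TH118.SG.Group
import Pool.Agent.TH125.Gal.Node

/-!
# Unipotent elements of rank at most two: the symplectic Lie algebra
-/

set_option linter.unusedSectionVars false

namespace Pool.Agent.TH118.SG

open Module Finset Function Pool.Agent.TH125.Gal Pool.Agent.TH118.IS

section

universe u v w x

variable {K : Type u} [Field K] [CharZero K] {T : Type v} [AddCommGroup T] [Module K T]
  {E : Type w} [AddCommGroup E] [Module K E] {S : Type} [Fintype S] [DecidableEq S]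
  {G : Type x} [Group G] {B : T →ₗ[K] T →ₗ[K] K} {ρ : G →* (T →ₗ[K] T)} {σ : G →* (E →ₗ[K] E)}

/-- unipotent elements -/
theorem unip_mem {g : G} {N : T →ₗ[K] T} (hg : ∀ x, ρ g x = x + N x) (hN : ∀ x, N (N x) = 0)
    (hB : ∀ x y, B (ρ g x) (ρ g y) = B x y) (hσ : σ g = 1) : N ∈ LL S B ρ σ := by
  have hpow : ∀ (n : ℕ) x, ρ (g ^ n) x = x + (n : K) • N x := by
    intro n
    induction n with
    | zero =>
      intro x
      rw [pow_zero, map_one]
      simp
    | succ n ih =>
      intro x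
      rw [pow_succ, map_mul, Module.End.mul_apply, hg, ih, map_add, hN, add_zero]
      push_cast
      module
  have h0 : ∀ x y, B (N x) y + B x (N y) + B (N x) (N y) = 0 := by
    intro x y
    have h1 := hB x y
    rw [hg, hg] at h1
    simp only [map_add, LinearMap.add_apply] at h1
    linear_combination h1
  have h00 : ∀ x y, B (N x) (N y) = 0 := by
    intro x y
    have h1 := h0 (N x) y
    rwa [hN, map_zero, LinearMap.zero_apply, LinearMap.zero_apply, zero_add, add_zero] at h1
  refine ⟨fun x y => ?_, fun h hh v => ?_⟩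
  · have h1 := h0 x y
    rwa [h00, add_zero] at h1
  · obtain ⟨Δ, hΔ, h1⟩ := hh
    obtain ⟨n, hn, hgn⟩ := exists_pow hΔ g
    have h2 : {x : K | h (fun j => v j + x • (N (v j)) + x ^ 2 • (0 : T)) =
      h (fun j => v j + x • (0 : T) + x ^ 2 • (0 : T))}.Infinite := by
      refine Set.infinite_of_injective_forall_mem (f := fun l : ℕ => ((n * l : ℕ) : K)) ?_ ?_
      · intro l l' hl
        have h3 : ((n * l : ℕ) : K) = ((n * l' : ℕ) : K) := hl
        have h4 : n * l = n * l' := Nat.cast_injective h3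
        exact Nat.eq_of_mul_eq_mul_left hn h4
      · intro l
        have h3 : g ^ (n * l) ∈ Δ := by
          rw [pow_mul]
          exact Subgroup.pow_mem _ hgn l
        have h4 := h1 _ h3 v
        rw [map_pow σ, hσ, one_pow] at h4
        change h _ = h _
        simp only [smul_zero, add_zero]
        have h5 : (fun j => ρ (g ^ (n * l)) (v j)) =
            fun j => v j + ((n * l : ℕ) : K) • N (v j) := by
          funext j
          rw [hpow]
        rw [h5] at h4
        exact h4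
    have h3 := deriv_eq h v (fun j => N (v j)) (fun _ => 0) v (fun _ => 0)
      (fun _ => 0) h2
    have h4 : ∀ j, h (update v j (0 : T)) = 0 := fun j =>
      h.map_coord_zero j (update_self _ _ _)
    rw [Finset.sum_congr rfl fun j _ => h4 j, Finset.sum_const_zero] at h3
    exact h3

end

variable {K : Type} [Field K] [CharZero K] [IsAlgClosed K] {T : Type} [AddCommGroup T]
  [Module K T] [FiniteDimensional K T] {E : Type} [AddCommGroup E] [Module K E]
  [FiniteDimensional K E] {S : Type} [Fintype S] [DecidableEq S] {G : Type} [Group G]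
  {B : T →ₗ[K] T →ₗ[K] K} {ρ : G →* (T →ₗ[K] T)} {σ : G →* (E →ₗ[K] E)} {χ : G →* K}

/-- **The whole symplectic Lie algebra, unipotent case.** -/
theorem unip_full (halt : ∀ v, B v v = 0) (hnd : ∀ u, (∀ v, B u v = 0) → u = 0)
    (hB : ∀ g x y, B (ρ g x) (ρ g y) = χ g * B x y) (hSI : Pool.Agent.TH125.Gal.SI ρ)
    {γ : G} (hχ : χ γ = 1) (hσ : σ γ = 1) {N : T →ₗ[K] T} (hg : ∀ x, ρ γ x = x + N x)
    (hN : ∀ x, N (N x) = 0) (hN0 : ∃ x, N x ≠ 0)
    (hrk : finrank K ((⊤ : Submodule K T).map N) ≤ 2) (x y : T) :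
    Pool.Agent.H204R3.SP.SS B x y ∈ LL S B ρ σ := by
  obtain ⟨z, hz⟩ := hN0
  have hX := SI_conv ⟨N z, hz⟩ hSI
  have hNL : N ∈ LL S B ρ σ := unip_mem hg hN (fun x y => by rw [hB, hχ, one_mul]) hσ
  have hconj : ∀ g : G, ∀ Y ∈ LL S B ρ σ, ρ g * Y * ρ g⁻¹ ∈ LL S B ρ σ := by
    intro g Y hY
    have h1 := LL_conj (μ := χ) hB hY g
    exact h1
  have hbr : ∀ Y ∈ LL S B ρ σ, ∀ Z ∈ LL S B ρ σ, Y * Z - Z * Y ∈ LL S B ρ σ :=
    fun Y hY Z hZ => LL_bracket hY hZ
  have hsp : ∀ Y ∈ LL S B ρ σ, ∀ u w, B (Y u) w + B u (Y w) = 0 := fun Y hY u w => hY.1 u w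
  exact full_of_N (R := ρ) (χ := χ) halt hnd hB hconj hbr hsp hX hNL
    (LinearMap.ext fun x => hN x) (fun h => hz (by rw [h]; rfl)) hrk x y

end Pool.Agent.TH118.SG
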